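import Pool.Agent.Y562.ES.Basic

/-!
# Existence of ideal subgroups in the semigroup of external types
-/

set_option autoImplicit false
set_option linter.unusedSectionVars false

open FirstOrder FirstOrder.Language FirstOrder.Language.Structure

namespace Pool.Agent.Y562.ES

attribute [local instance] Ultrafilter.mul Ultrafilter.semigroup

/-- a compact right topological semigroup has a minimal closed left ideal -/
theorem exists_minimal_closed_left_ideal (G : Type) [Group G] :
    ∃ I : Set (Ultrafilter G), I.Nonempty ∧ IsClosed I ∧ (∀ p, ∀ q ∈ I, p * q ∈ I) ∧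
      ∀ q ∈ I, ∀ r ∈ I, ∃ p, p * q = r := by
  let S : Set (Set (Ultrafilter G)) :=
    { N | IsClosed N ∧ N.Nonempty ∧ ∀ m, ∀ m' ∈ N, m * m' ∈ N }
  rsuffices ⟨N, hN⟩ : ∃ N', Minimal (· ∈ S) N'
  · obtain ⟨N_closed, N_ne, N_mul⟩ := hN.prop
    refine ⟨N, N_ne, N_closed, N_mul, fun q hq r hr => ?_⟩
    have h1 : (· * q) '' Set.univ = N := by
      apply hN.eq_of_subset
      · refine ⟨(Ultrafilter.continuous_mul_left q).isClosedMap _ isClosed_univ,
          ⟨_, ⟨q, trivial, rfl⟩⟩, ?_⟩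
        rintro m _ ⟨m', -, rfl⟩
        exact ⟨m * m', trivial, mul_assoc _ _ _⟩
      · rintro _ ⟨m', -, rfl⟩
        exact N_mul _ _ hq
    rw [← h1] at hr
    obtain ⟨p, -, hp⟩ := hr
    exact ⟨p, hp⟩
  refine zorn_superset _ fun c hcs hc => ?_
  refine
    ⟨⋂₀ c, ⟨isClosed_sInter fun t ht => (hcs ht).1, ?_, fun m m' hm' => ?_⟩, fun s hs =>
      Set.sInter_subset_of_mem hs⟩
  · obtain rfl | hcnemp := c.eq_empty_or_nonempty
    · rw [Set.sInter_empty]
      exact Set.univ_nonempty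
    convert!
      @IsCompact.nonempty_iInter_of_directed_nonempty_isCompact_isClosed _ _ _ hcnemp.coe_sort
        ((↑) : c → Set (Ultrafilter G)) ?_ ?_ ?_ ?_
    · exact Set.sInter_eq_iInter
    · refine DirectedOn.directed_val (IsChain.directedOn hc.symm)
    exacts [fun i => (hcs i.prop).2.1, fun i => (hcs i.prop).1.isCompact, fun i => (hcs i.prop).1]
  · rw [Set.mem_sInter]
    exact fun t ht => (hcs ht).2.2 m m' (Set.mem_sInter.mp hm' t ht)

variable {L : FirstOrder.Language.{0, 0}} {G : Type} [L.Structure G] [Group G]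
  {mu : L.Functions 2} (hmu : ∀ x y : G, funMap mu ![x, y] = x * y)

include hmu in
theorem ofUF_mul (u v : Ultrafilter G) : ofUF L (u * v) = extMul L (ofUF L u) (ofUF L v) := by
  ext U
  constructor
  · rintro ⟨h1, h2⟩
    have h3 : {g : G | {x : G | g * x ∈ U} ∈ v} ∈ u := h2
    refine ⟨h1, h1.inner mu hmu (ofUF_isExtType v), ?_⟩
    refine Filter.mem_of_superset h3 fun g hg => ?_
    exact ⟨h1.translate mu hmu g, hg⟩
  · rintro ⟨h1, -, h2⟩
    refine ⟨h1, ?_⟩
    have h3 : {g : G | {x : G | g * x ∈ U} ∈ v} ∈ u :=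
      Filter.mem_of_superset h2 fun g hg => hg.2
    exact h3

theorem ofUF_surj {p : Set (Set G)} (hp : IsExtType L p) : ∃ u : Ultrafilter G, ofUF L u = p := by
  classical
  obtain ⟨u, hu⟩ := Ultrafilter.exists_ultrafilter_of_finite_inter_nonempty p (by
    intro T hT
    have h1 : ∀ T : Finset (Set G), (T : Set (Set G)) ⊆ p → ⋂₀ (T : Set (Set G)) ∈ p := by
      intro T
      induction T using Finset.induction_on with
      | empty =>
        intro _
        rw [Finset.coe_empty, Set.sInter_empty]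
        exact hp.univ_mem
      | insert a T ha ih =>
        intro hT
        rw [Finset.coe_insert] at hT ⊢
        rw [Set.sInter_insert]
        exact hp.inter _ (hT (Set.mem_insert _ _)) _ (ih fun x hx => hT (Set.mem_insert_of_mem _ hx))
    have h2 := h1 T hT
    rw [Set.nonempty_iff_ne_empty]
    intro h3
    rw [h3] at h2
    exact hp.empty h2)
  refine ⟨u, ?_⟩
  ext U
  constructor
  · rintro ⟨h1, h2⟩
    by_contra h3
    have h4 := (hp.compl_mem h1).2 h3
    have h5 := hu h4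
    exact (Ultrafilter.compl_mem_iff_notMem.1 h5) h2
  · intro h
    exact ⟨hp.extDef U h, hu h⟩

include hmu in
/-- The semigroup of external types of a group has ideal subgroups. -/
theorem exists_idealSubgroup : ∃ H : Set (Set (Set G)), IsIdealSubgroup L H := by
  obtain ⟨I, ⟨q₀, hq₀⟩, hcl, hmul, hmin⟩ := exists_minimal_closed_left_ideal G
  obtain ⟨e, he, hee⟩ := exists_idempotent_in_compact_subsemigroup
    (fun r : Ultrafilter G => Ultrafilter.continuous_mul_left r) I ⟨q₀, hq₀⟩ hcl.isCompact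
    (fun x _ y hy => hmul x y hy)
  refine ⟨{h | ∃ q ∈ ofUF L '' I, h = extMul L (ofUF L e) q}, ofUF L '' I, ⟨?_, ?_, ?_⟩, ?_,
    ofUF L e, ⟨e, he, rfl⟩, ?_, rfl⟩
  · rintro _ ⟨u, -, rfl⟩
    exact ofUF_isExtType u
  · exact ⟨_, q₀, hq₀, rfl⟩
  · rintro p hp _ ⟨v, hv, rfl⟩
    obtain ⟨u, rfl⟩ := ofUF_surj hp
    exact ⟨u * v, hmul u v hv, ofUF_mul hmu u v⟩
  · intro I' hI' hsub
    refine Set.Subset.antisymm hsub ?_
    rintro _ ⟨w, hw, rfl⟩
    obtain ⟨q', hq'⟩ := hI'.nonempty
    obtain ⟨v, hv, rfl⟩ := hsub hq'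
    obtain ⟨u, rfl⟩ := hmin v hv w hw
    rw [ofUF_mul hmu]
    exact hI'.mul_mem _ (ofUF_isExtType u) _ hq'
  · rw [← ofUF_mul hmu, hee]

end Pool.Agent.Y562.ES
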