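import Pool.Agent.Y562.ES.Defs

/-!
# External types: closure properties of externally definable sets, and minimal left ideals
-/

set_option autoImplicit false
set_option linter.unusedSectionVars false

open FirstOrder FirstOrder.Language FirstOrder.Language.Structure

namespace Pool.Agent.Y562.ES

section FA

variable {L : FirstOrder.Language.{0, 0}} {M : Type} [L.Structure M]

/-- finitely approximable by a formula -/
def FA (L : FirstOrder.Language.{0, 0}) (M : Type) [L.Structure M] {n : ℕ}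
    (X : Set (Fin n → M)) : Prop :=
  ∃ (m : ℕ) (φ : L.Formula (Fin n ⊕ Fin m)), ∀ A : Finset (Fin n → M), ∃ b : Fin m → M,
    ∀ a ∈ A, (a ∈ X ↔ φ.Realize (Sum.elim a b))

theorem ExtDef.fa {n : ℕ} {X : Set (Fin n → M)} (h : ExtDef L M X) : FA L M X := by
  classical
  obtain ⟨N₀, _, j, m, φ, b, rfl⟩ := h
  refine ⟨m, φ, fun A => ?_⟩
  -- the formula which says that some tuple has the given pattern on `A`
  let ψ : L.Formula ((A × Fin n) ⊕ Fin m) :=
    Formula.iInf (α := A) fun a =>
      if φ.Realize (Sum.elim (j ∘ a.1) b) then φ.relabel (Sum.map (fun i => (a, i)) id)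
      else ∼(φ.relabel (Sum.map (fun i => (a, i)) id))
  have key : ∀ (K : Type) [L.Structure K] (f : M → K) (c : Fin m → K),
      ψ.Realize (Sum.elim (fun p : A × Fin n => f (p.1.1 p.2)) c) ↔
        ∀ a : A, (φ.Realize (Sum.elim (j ∘ a.1) b) ↔ φ.Realize (Sum.elim (f ∘ a.1) c)) := by
    intro K _ f c
    simp only [ψ, Formula.realize_iInf]
    refine forall_congr' fun a => ?_
    have e : (Sum.elim (fun p : A × Fin n => f (p.1.1 p.2)) c) ∘ (Sum.map (fun i => (a, i)) id) =
        Sum.elim (f ∘ a.1) c := by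
      funext s
      rcases s with s | s <;> rfl
    split_ifs with h
    · rw [Formula.realize_relabel, e]
      simp [h]
    · rw [Formula.realize_not, Formula.realize_relabel, e]
      simp [h]
  have h1 : (ψ.iExs (Fin m)).Realize (fun p : A × Fin n => j (p.1.1 p.2)) := by
    rw [Formula.realize_iExs]
    refine ⟨b, (key N₀ j b).2 fun a => Iff.rfl⟩
  have h2 : (ψ.iExs (Fin m)).Realize (fun p : A × Fin n => p.1.1 p.2) := by
    have := j.map_formula (ψ.iExs (Fin m)) (fun p : A × Fin n => p.1.1 p.2)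
    exact this.1 h1
  rw [Formula.realize_iExs] at h2
  obtain ⟨c, hc⟩ := h2
  have h3 := (key M id c).1 hc
  exact ⟨c, fun a ha => h3 ⟨a, ha⟩⟩

theorem FA.extDef [Nonempty M] {n : ℕ} {X : Set (Fin n → M)} (h : FA L M X) : ExtDef L M X := by
  classical
  obtain ⟨m, φ, hφ⟩ := h
  choose b hb using hφ
  -- ultrafilter on the finite sets
  obtain ⟨u, hu⟩ : ∃ u : Ultrafilter (Finset (Fin n → M)),
      (u : Filter (Finset (Fin n → M))) ≤ Filter.atTop :=
    ⟨Ultrafilter.of Filter.atTop, Ultrafilter.of_le _⟩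
  let N₀ := (u : Filter (Finset (Fin n → M))).Product (fun _ => M)
  let d : M → N₀ := fun x => ((fun _ => x : Finset (Fin n → M) → M) : N₀)
  have hd : ∀ {α : Type} (χ : L.Formula α) (x : α → M), χ.Realize (d ∘ x) ↔ χ.Realize x := by
    intro α χ x
    have := Ultraproduct.realize_formula_cast (u := u) (M := fun _ => M) χ (fun i _ => x i)
    refine this.trans ?_
    simp
  refine ⟨N₀, inferInstance, ⟨d, fun n χ x => hd χ x⟩, m, φ,
    fun i => ((fun A => b A i : Finset (Fin n → M) → M) : N₀), ?_⟩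
  ext a
  rw [Set.mem_ofPred_eq]
  have h1 := Ultraproduct.realize_formula_cast (u := u) (M := fun _ => M) φ
    (Sum.elim (fun i _ => a i) (fun i A => b A i))
  have e : (fun i : Fin n ⊕ Fin m => (((Sum.elim (fun i _ => a i) (fun i A => b A i) :
      Fin n ⊕ Fin m → Finset (Fin n → M) → M) i : Finset (Fin n → M) → M) : N₀)) =
      Sum.elim (d ∘ a) (fun i => ((fun A => b A i : Finset (Fin n → M) → M) : N₀)) := by
    funext s
    rcases s with s | s <;> rfl
  rw [e] at h1
  refine Iff.trans ?_ h1.symm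
  have h2 : ∀ᶠ A in (u : Filter (Finset (Fin n → M))), a ∈ A :=
    hu (Filter.eventually_atTop.2 ⟨{a}, fun A hA => hA (Finset.mem_singleton_self a)⟩)
  have h3 : ∀ᶠ A in (u : Filter (Finset (Fin n → M))), (a ∈ X ↔
      φ.Realize (fun i => (Sum.elim (fun i _ => a i) (fun i A => b A i) :
      Fin n ⊕ Fin m → Finset (Fin n → M) → M) i A)) := by
    filter_upwards [h2] with A hA
    rw [hb A a hA]
    have : (fun i => (Sum.elim (fun i _ => a i) (fun i A => b A i) :
      Fin n ⊕ Fin m → Finset (Fin n → M) → M) i A) = Sum.elim a (b A) := by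
      funext s
      rcases s with s | s <;> rfl
    rw [this]
  constructor
  · intro ha
    filter_upwards [h3] with A hA using hA.1 ha
  · intro ha
    obtain ⟨A, h4, h5⟩ := (ha.and h3).exists
    exact h5.2 h4

end FA

section closure

variable {L : FirstOrder.Language.{0, 0}} {G : Type} [L.Structure G]

theorem extDefSet_iff [Nonempty G] {U : Set G} : ExtDefSet L G U ↔
    ∃ (m : ℕ) (φ : L.Formula (Fin 1 ⊕ Fin m)), ∀ A : Finset G, ∃ b : Fin m → G,
      ∀ a ∈ A, (a ∈ U ↔ φ.Realize (Sum.elim (fun _ => a) b)) := by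
  classical
  constructor
  · intro h
    obtain ⟨m, φ, hφ⟩ := ExtDef.fa h
    refine ⟨m, φ, fun A => ?_⟩
    obtain ⟨b, hb⟩ := hφ (A.image fun a _ => a)
    exact ⟨b, fun a ha => hb (fun _ => a) (Finset.mem_image_of_mem _ ha)⟩
  · rintro ⟨m, φ, hφ⟩
    refine FA.extDef ⟨m, φ, fun A => ?_⟩
    obtain ⟨b, hb⟩ := hφ (A.image fun a => a 0)
    refine ⟨b, fun a ha => ?_⟩
    have h1 := hb (a 0) (Finset.mem_image_of_mem _ ha)
    have h2 : (fun _ : Fin 1 => a 0) = a := funext fun i => by rw [Subsingleton.elim i 0]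
    rw [h2] at h1
    exact h1

theorem ExtDefSet.compl [Nonempty G] {U : Set G} (h : ExtDefSet L G U) : ExtDefSet L G Uᶜ := by
  rw [extDefSet_iff] at h ⊢
  obtain ⟨m, φ, hφ⟩ := h
  refine ⟨m, ∼φ, fun A => ?_⟩
  obtain ⟨b, hb⟩ := hφ A
  exact ⟨b, fun a ha => by rw [Formula.realize_not, ← hb a ha]; rfl⟩

theorem ExtDefSet.univ [Nonempty G] : ExtDefSet L G (Set.univ : Set G) := by
  rw [extDefSet_iff]
  exact ⟨0, ⊤, fun A => ⟨Fin.elim0, fun a _ => by simp⟩⟩

theorem ExtDefSet.inter [Nonempty G] {U V : Set G} (hU : ExtDefSet L G U)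
    (hV : ExtDefSet L G V) : ExtDefSet L G (U ∩ V) := by
  rw [extDefSet_iff] at hU hV ⊢
  obtain ⟨m, φ, hφ⟩ := hU
  obtain ⟨k, ψ, hψ⟩ := hV
  refine ⟨m + k, φ.relabel (Sum.map id (Fin.castAdd k)) ⊓ ψ.relabel (Sum.map id (Fin.natAdd m)),
    fun A => ?_⟩
  obtain ⟨b, hb⟩ := hφ A
  obtain ⟨c, hc⟩ := hψ A
  refine ⟨Fin.append b c, fun a ha => ?_⟩
  rw [Formula.realize_inf, Formula.realize_relabel, Formula.realize_relabel]
  have e1 : Sum.elim (fun _ : Fin 1 => a) (Fin.append b c) ∘ Sum.map id (Fin.castAdd k) =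
      Sum.elim (fun _ => a) b := by
    funext s
    rcases s with s | s <;> simp
  have e2 : Sum.elim (fun _ : Fin 1 => a) (Fin.append b c) ∘ Sum.map id (Fin.natAdd m) =
      Sum.elim (fun _ => a) c := by
    funext s
    rcases s with s | s <;> simp
  rw [e1, e2, ← hb a ha, ← hc a ha]
  rfl

theorem ExtDefSet.union [Nonempty G] {U V : Set G} (hU : ExtDefSet L G U)
    (hV : ExtDefSet L G V) : ExtDefSet L G (U ∪ V) := by
  have := (hU.compl.inter hV.compl).compl
  rwa [Set.compl_inter, compl_compl, compl_compl] at this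

theorem ExtDefSet.empty [Nonempty G] : ExtDefSet L G (∅ : Set G) := by
  have := (ExtDefSet.univ (L := L) (G := G)).compl
  rwa [Set.compl_univ] at this

variable [Group G] (mu : L.Functions 2) (hmu : ∀ x y : G, funMap mu ![x, y] = x * y)

include hmu in
theorem ExtDefSet.translate {U : Set G} (hU : ExtDefSet L G U) (g : G) :
    ExtDefSet L G {x | g * x ∈ U} := by
  classical
  rw [extDefSet_iff] at hU ⊢
  obtain ⟨m, φ, hφ⟩ := hU
  refine ⟨m + 1, BoundedFormula.subst φ (Sum.elim
    (fun _ => mu.apply₂ (Term.var (Sum.inr (Fin.last m))) (Term.var (Sum.inl 0)))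
    (fun i => Term.var (Sum.inr i.castSucc))), fun A => ?_⟩
  obtain ⟨b, hb⟩ := hφ (A.image fun a => g * a)
  refine ⟨Fin.snoc b g, fun a ha => ?_⟩
  rw [Set.mem_ofPred_eq, hb _ (Finset.mem_image_of_mem _ ha), Formula.Realize, Formula.Realize,
    BoundedFormula.realize_subst]
  have e : (fun i => Term.realize (Sum.elim (fun _ : Fin 1 => a) (Fin.snoc b g : Fin (m + 1) → G))
      ((Sum.elim (fun _ => mu.apply₂ (Term.var (Sum.inr (Fin.last m))) (Term.var (Sum.inl 0)))
      (fun i => Term.var (Sum.inr i.castSucc)) : Fin 1 ⊕ Fin m → L.Term (Fin 1 ⊕ Fin (m + 1))) i)) =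
      Sum.elim (fun _ => g * a) b := by
    funext s
    rcases s with s | s
    · simp [Term.realize_functions_apply₂, hmu]
    · simp
  rw [e]

include hmu in
theorem ExtDefSet.inner {U : Set G} (hU : ExtDefSet L G U) {q : Set (Set G)}
    (hq : IsExtType L q) : ExtDefSet L G {g | {x | g * x ∈ U} ∈ q} := by
  classical
  have hU' := hU
  rw [extDefSet_iff] at hU ⊢
  obtain ⟨m, φ, hφ⟩ := hU
  refine ⟨m + 1, BoundedFormula.subst φ (Sum.elim
    (fun _ => mu.apply₂ (Term.var (Sum.inl 0)) (Term.var (Sum.inr (Fin.last m))))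
    (fun i => Term.var (Sum.inr i.castSucc))), fun A => ?_⟩
  -- a point with the right pattern
  obtain ⟨c, hc⟩ : ∃ c : G, ∀ g ∈ A, (g * c ∈ U ↔ {x | g * x ∈ U} ∈ q) := by
    have h1 : ∀ B : Finset G, B ⊆ A →
        {x : G | ∀ g ∈ B, (g * x ∈ U ↔ {x | g * x ∈ U} ∈ q)} ∈ q := by
      intro B
      induction B using Finset.induction_on with
      | empty =>
        intro _
        have : {x : G | ∀ g ∈ (∅ : Finset G), (g * x ∈ U ↔ {x | g * x ∈ U} ∈ q)} = Set.univ := by
          ext x
          simp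
        rw [this]
        rcases hq.mem_or _ ExtDefSet.univ with h | h
        · exact h
        · rw [Set.compl_univ] at h
          exact absurd h hq.empty
      | insert g B hg ih =>
        intro hB
        have h2 := ih fun x hx => hB (Finset.mem_insert_of_mem hx)
        have h3 : {x : G | ∀ g' ∈ insert g B, (g' * x ∈ U ↔ {x | g' * x ∈ U} ∈ q)} =
            {x : G | ∀ g ∈ B, (g * x ∈ U ↔ {x | g * x ∈ U} ∈ q)} ∩
              {x | (g * x ∈ U ↔ {x | g * x ∈ U} ∈ q)} := by
          ext x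
          simp only [Finset.mem_insert, forall_eq_or_imp, Set.mem_ofPred_eq, Set.mem_inter_iff]
          tauto
        rw [h3]
        refine hq.inter _ h2 _ ?_
        by_cases h4 : {x | g * x ∈ U} ∈ q
        · have h6 : {x | (g * x ∈ U ↔ {x | g * x ∈ U} ∈ q)} = {x | g * x ∈ U} := by
            ext x
            simp [h4]
          rw [h6]
          exact h4
        · have h5 := (hq.mem_or _ (hU'.translate mu hmu g)).resolve_left h4
          have h6 : {x | (g * x ∈ U ↔ {x | g * x ∈ U} ∈ q)} = {x | g * x ∈ U}ᶜ := by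
            ext x
            simp [h4]
          rw [h6]
          exact h5
    have h2 := h1 A (Finset.Subset.refl _)
    by_contra hcon
    push Not at hcon
    have h3 : {x : G | ∀ g ∈ A, (g * x ∈ U ↔ {x | g * x ∈ U} ∈ q)} = ∅ := by
      ext x
      simp only [Set.mem_ofPred_eq, Set.mem_empty_iff_false, iff_false]
      intro h
      obtain ⟨g, hg, h4⟩ := hcon x
      have := h g hg
      rcases h4 with h4 | h4
      · exact h4.2 (this.1 h4.1)
      · exact h4.1 (this.2 h4.2)
    rw [h3] at h2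
    exact hq.empty h2
  obtain ⟨b, hb⟩ := hφ (A.image fun a => a * c)
  refine ⟨Fin.snoc b c, fun a ha => ?_⟩
  rw [Set.mem_ofPred_eq, ← hc a ha, hb _ (Finset.mem_image_of_mem _ ha), Formula.Realize,
    Formula.Realize, BoundedFormula.realize_subst]
  have e : (fun i => Term.realize (Sum.elim (fun _ : Fin 1 => a) (Fin.snoc b c : Fin (m + 1) → G))
      ((Sum.elim (fun _ => mu.apply₂ (Term.var (Sum.inl 0)) (Term.var (Sum.inr (Fin.last m))))
      (fun i => Term.var (Sum.inr i.castSucc)) : Fin 1 ⊕ Fin m → L.Term (Fin 1 ⊕ Fin (m + 1))) i)) =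
      Sum.elim (fun _ => a * c) b := by
    funext s
    rcases s with s | s
    · simp [Term.realize_functions_apply₂, hmu]
    · simp
  rw [e]

end closure

section types

variable {L : FirstOrder.Language.{0, 0}} {G : Type} [L.Structure G] [Group G]
  {mu : L.Functions 2} (hmu : ∀ x y : G, funMap mu ![x, y] = x * y)

theorem IsExtType.univ_mem {p : Set (Set G)} (hp : IsExtType L p) : Set.univ ∈ p := by
  rcases hp.mem_or _ ExtDefSet.univ with h | h
  · exact h
  · rw [Set.compl_univ] at h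
    exact absurd h hp.empty

theorem IsExtType.compl_mem {p : Set (Set G)} (hp : IsExtType L p) {U : Set G}
    (hU : ExtDefSet L G U) : Uᶜ ∈ p ↔ U ∉ p := by
  constructor
  · intro h1 h2
    have := hp.inter _ h1 _ h2
    rw [Set.compl_inter_self] at this
    exact hp.empty this
  · intro h
    exact (hp.mem_or U hU).resolve_left h

/-- the external type given by an ultrafilter -/
def ofUF (L : FirstOrder.Language.{0, 0}) {G : Type} [L.Structure G] (u : Ultrafilter G) :
    Set (Set G) := {U | ExtDefSet L G U ∧ U ∈ u}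

theorem ofUF_isExtType (u : Ultrafilter G) : IsExtType L (ofUF L u) where
  extDef := fun U hU => hU.1
  inter := fun U hU V hV => ⟨hU.1.inter hV.1, Filter.inter_mem hU.2 hV.2⟩
  mono := fun U hU V hV h => ⟨hV, Filter.mem_of_superset hU.2 h⟩
  empty := fun h => Ultrafilter.empty_notMem h.2
  mem_or := fun U hU => by
    rcases Ultrafilter.mem_or_compl_mem u U with h | h
    · exact Or.inl ⟨hU, h⟩
    · exact Or.inr ⟨hU.compl, h⟩

include hmu in
theorem extMul_isExtType {p q : Set (Set G)} (hp : IsExtType L p) (hq : IsExtType L q) :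
    IsExtType L (extMul L p q) where
  extDef := fun U hU => hU.1
  inter := fun U hU V hV => ⟨hU.1.inter hV.1, by
    refine hp.mono _ (hp.inter _ hU.2 _ hV.2) _ ((hU.1.inter hV.1).inner mu hmu hq) ?_
    rintro g ⟨h1, h2⟩
    exact hq.inter _ h1 _ h2⟩
  mono := fun U hU V hV h => ⟨hV, by
    refine hp.mono _ hU.2 _ (hV.inner mu hmu hq) ?_
    intro g hg
    exact hq.mono _ hg _ (hV.translate mu hmu g) fun x hx => h hx⟩
  empty := fun h => by
    have h1 : {g : G | {x : G | g * x ∈ (∅ : Set G)} ∈ q} = ∅ := by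
      ext g
      simp only [Set.mem_empty_iff_false, Set.mem_ofPred_eq, iff_false]
      exact hq.empty
    have := h.2
    rw [h1] at this
    exact hp.empty this
  mem_or := fun U hU => by
    rcases hp.mem_or _ (hU.inner mu hmu hq) with h | h
    · exact Or.inl ⟨hU, h⟩
    · refine Or.inr ⟨hU.compl, ?_⟩
      have h1 : {g : G | {x : G | g * x ∈ Uᶜ} ∈ q} = {g : G | {x : G | g * x ∈ U} ∈ q}ᶜ := by
        ext g
        exact hq.compl_mem (hU.translate mu hmu g)
      rw [h1]
      exact h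

theorem mem_extMul {p q : Set (Set G)} {U : Set G} (hU : ExtDefSet L G U) :
    U ∈ extMul L p q ↔ {g : G | {x : G | g * x ∈ U} ∈ q} ∈ p :=
  ⟨fun h => h.2, fun h => ⟨hU, h⟩⟩

include hmu in
theorem extMul_assoc {p q r : Set (Set G)} (hr : IsExtType L r) : extMul L (extMul L p q) r = extMul L p (extMul L q r) := by
  ext U
  by_cases hU : ExtDefSet L G U
  · rw [mem_extMul hU, mem_extMul (hU.inner mu hmu hr), mem_extMul hU]
    have : {g : G | {x : G | g * x ∈ {g : G | {x : G | g * x ∈ U} ∈ r}} ∈ q} =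
        {g : G | {x : G | g * x ∈ U} ∈ extMul L q r} := by
      ext g
      change _ ↔ {x : G | g * x ∈ U} ∈ extMul L q r
      rw [mem_extMul (hU.translate mu hmu g)]
      have e : {x : G | g * x ∈ {g : G | {x : G | g * x ∈ U} ∈ r}} =
          {g_1 : G | {x : G | g_1 * x ∈ {x : G | g * x ∈ U}} ∈ r} := by
        ext y
        simp only [Set.mem_ofPred_eq, mul_assoc]
      rw [← e]
      rfl
    rw [this]
  · exact ⟨fun h => absurd h.1 hU, fun h => absurd h.1 hU⟩

include hmu in
/-- In a minimal left ideal every set which belongs to some element is syndetic. -/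
theorem syndetic {I : Set (Set (Set G))} (hI : IsLeftIdeal L I)
    (hmin : ∀ I', IsLeftIdeal L I' → I' ⊆ I → I' = I) {q : Set (Set G)} (hq : q ∈ I) {W : Set G}
    (hW : W ∈ q) : ∃ F : Finset G, ∀ k : G, ∃ g ∈ F, {x | g * (k * x) ∈ W} ∈ q := by
  classical
  by_contra hcon
  push Not at hcon
  have hqt := hI.isExtType q hq
  have hWd := hqt.extDef W hW
  -- the sets `A g`
  have hAd : ∀ g : G, ExtDefSet L G {k | {x | g * (k * x) ∈ W} ∉ q} := by
    intro g
    have := ((hWd.translate mu hmu g).inner mu hmu hqt).compl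
    exact this
  obtain ⟨u, hu⟩ : ∃ u : Ultrafilter G, ∀ g : G, {k | {x | g * (k * x) ∈ W} ∉ q} ∈ u := by
    obtain ⟨u, hu⟩ := Ultrafilter.exists_ultrafilter_of_finite_inter_nonempty
      ((fun g : G => {k | {x | g * (k * x) ∈ W} ∉ q}) '' Set.univ) (by
        intro T hT
        obtain ⟨F, -, rfl⟩ := Finset.subset_set_image_iff.1 hT
        obtain ⟨k, hk⟩ := hcon F
        refine ⟨k, ?_⟩
        rw [Finset.coe_image, Set.sInter_image, Set.mem_iInter₂]
        exact fun g hg => hk g hg)
    exact ⟨u, fun g => hu ⟨g, trivial, rfl⟩⟩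
  have hp := ofUF_isExtType (L := L) u
  have hp' : ∀ g : G, {k | {x | g * (k * x) ∈ W} ∉ q} ∈ ofUF L u := fun g => ⟨hAd g, hu g⟩
  have hq' := hI.mul_mem _ hp q hq
  -- no translate of `W` belongs to `p * q`
  have h1 : ∀ g : G, {x | g * x ∈ W} ∉ extMul L (ofUF L u) q := by
    intro g hg
    rw [mem_extMul (hWd.translate mu hmu g)] at hg
    have h2 := hp.inter _ hg _ (hp' g)
    have h3 : {k : G | {x : G | k * x ∈ {x : G | g * x ∈ W}} ∈ q} ∩
        {k | {x | g * (k * x) ∈ W} ∉ q} = ∅ := by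
      ext k
      simp only [Set.mem_inter_iff, Set.mem_ofPred_eq, Set.mem_empty_iff_false, iff_false, not_and,
        not_not]
      exact id
    rw [h3] at h2
    exact hp.empty h2
  -- by minimality `q = p' * (p * q)`
  have hqt' := hI.isExtType _ hq'
  have h4 : IsLeftIdeal L {r | ∃ p', IsExtType L p' ∧ r = extMul L p' (extMul L (ofUF L u) q)} := by
    refine ⟨?_, ⟨_, _, hp, rfl⟩, ?_⟩
    · rintro r ⟨p', hp', rfl⟩
      exact extMul_isExtType hmu hp' hqt'
    · rintro p₁ hp₁ r ⟨p', hp', rfl⟩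
      exact ⟨extMul L p₁ p', extMul_isExtType hmu hp₁ hp', (extMul_assoc hmu hqt').symm⟩
  have h5 := hmin _ h4 (by
    rintro r ⟨p', hp', rfl⟩
    exact hI.mul_mem _ hp' _ hq')
  have h6 : q ∈ {r | ∃ p', IsExtType L p' ∧ r = extMul L p' (extMul L (ofUF L u) q)} := by
    rw [h5]
    exact hq
  obtain ⟨p', hp', h7⟩ := h6
  rw [h7, mem_extMul hWd] at hW
  have h8 : {g : G | {x : G | g * x ∈ W} ∈ extMul L (ofUF L u) q} = ∅ := by
    ext g
    simpa using h1 g
  rw [h8] at hW
  exact hp'.empty hW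

end types

end Pool.Agent.Y562.ES
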