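import Mathlib

/-!
# The group

`B i = 2 ^ (i ^ 2)`; the group consists of the permutations of `ℕ` which, for some `i`, act in the
same way on all the blocks `[b B i, (b + 1) B i)`.  The digit `dg j k` of `k` takes
`2 ^ (2 j + 1)` values.
-/

set_option autoImplicit false
set_option linter.unusedSectionVars false

namespace Pool.Agent.Y562.ES

/-- the size of the blocks -/
def B (i : ℕ) : ℕ := 2 ^ (i ^ 2)

theorem B_pos (i : ℕ) : 0 < B i := by unfold B; positivity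

theorem B_succ (i : ℕ) : B (i + 1) = B i * 2 ^ (2 * i + 1) := by
  unfold B
  rw [← pow_add]
  congr 1
  ring

theorem B_dvd {i k : ℕ} (h : i ≤ k) : B i ∣ B k :=
  pow_dvd_pow 2 (Nat.pow_le_pow_left h 2)

theorem lt_B (i : ℕ) : i < B i := by
  unfold B
  calc i < 2 ^ i := Nat.lt_two_pow_self
    _ ≤ 2 ^ (i ^ 2) := Nat.pow_le_pow_right (by norm_num) (Nat.le_self_pow (by norm_num) i)

/-- the digits -/
def dg (j k : ℕ) : ℕ := k / B j % 2 ^ (2 * j + 1)

theorem dg_mod {i j : ℕ} (h : j < i) (k : ℕ) : dg j (k % B i) = dg j k := by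
  unfold dg
  obtain ⟨c, hc⟩ := B_dvd (Nat.succ_le_of_lt h)
  have h1 : B i = B j * (2 ^ (2 * j + 1) * c) := by
    rw [hc, Nat.succ_eq_add_one, B_succ, mul_assoc]
  rw [h1, Nat.mod_mul_right_div_self, Nat.mod_mul_right_mod]

theorem dg_congr_div {i j : ℕ} (h : i ≤ j) {k l : ℕ} (hkl : k / B i = l / B i) :
    dg j k = dg j l := by
  unfold dg
  obtain ⟨c, hc⟩ := B_dvd h
  rw [hc, ← Nat.div_div_eq_div_mul, ← Nat.div_div_eq_div_mul, hkl]

theorem dg_eq_zero {j k : ℕ} (h : k ≤ j) : dg j k = 0 := by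
  unfold dg
  rw [Nat.div_eq_of_lt (lt_of_le_of_lt h (lt_B j)), Nat.zero_mod]

/-- the level of a permutation is at most `i` -/
def Lv (i : ℕ) (g : Equiv.Perm ℕ) : Prop :=
  (∀ k < B i, g k < B i) ∧ ∀ k, g k = B i * (k / B i) + g (k % B i)

theorem Lv.div {i : ℕ} {g : Equiv.Perm ℕ} (h : Lv i g) (k : ℕ) : g k / B i = k / B i := by
  rw [h.2 k, Nat.mul_add_div (B_pos i),
    Nat.div_eq_of_lt (h.1 _ (Nat.mod_lt _ (B_pos i))), add_zero]

theorem Lv.mod {i : ℕ} {g : Equiv.Perm ℕ} (h : Lv i g) (k : ℕ) : g k % B i = g (k % B i) := by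
  rw [h.2 k, Nat.mul_add_mod, Nat.mod_eq_of_lt (h.1 _ (Nat.mod_lt _ (B_pos i)))]

theorem Lv.one (i : ℕ) : Lv i 1 := by
  refine ⟨fun k hk => hk, fun k => ?_⟩
  rw [Equiv.Perm.one_apply, Equiv.Perm.one_apply, Nat.div_add_mod]

theorem Lv.mul {i : ℕ} {g h : Equiv.Perm ℕ} (hg : Lv i g) (hh : Lv i h) : Lv i (g * h) := by
  refine ⟨fun k hk => hg.1 _ (hh.1 _ hk), fun k => ?_⟩
  rw [Equiv.Perm.mul_apply, Equiv.Perm.mul_apply, hg.2 (h k), hh.div, hh.mod]

theorem ais (g : Equiv.Perm ℕ) (k : ℕ) : g (g⁻¹ k) = k := Equiv.apply_symm_apply g k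

theorem Lv.inv {i : ℕ} {g : Equiv.Perm ℕ} (hg : Lv i g) : Lv i g⁻¹ := by
  have h1 : ∀ k < B i, g⁻¹ k < B i := by
    intro k hk
    have h2 := hg.div (g⁻¹ k)
    rw [ais, Nat.div_eq_of_lt hk] at h2
    exact (Nat.div_eq_zero_iff_lt (B_pos i)).1 h2.symm
  refine ⟨h1, fun k => ?_⟩
  rw [Equiv.Perm.inv_eq_iff_eq, hg.2 (B i * (k / B i) + g⁻¹ (k % B i))]
  have h2 := h1 _ (Nat.mod_lt k (B_pos i))
  rw [Nat.mul_add_div (B_pos i), Nat.div_eq_of_lt h2, add_zero, Nat.mul_add_mod,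
    Nat.mod_eq_of_lt h2, ais, Nat.div_add_mod]

theorem Lv.mono {i j : ℕ} (hij : i ≤ j) {g : Equiv.Perm ℕ} (hg : Lv i g) : Lv j g := by
  obtain ⟨c, hc⟩ := B_dvd hij
  have hc0 : 0 < c := Nat.pos_of_ne_zero fun h => by
    rw [h, mul_zero] at hc
    exact (B_pos j).ne' hc
  constructor
  · intro k hk
    have h2 := hg.div k
    rw [hc] at hk ⊢
    have h3 := hg.1 _ (Nat.mod_lt k (B_pos i))
    rw [mul_comm, ← Nat.div_lt_iff_lt_mul (B_pos i)] at hk ⊢
    rw [h2]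
    exact hk
  · intro k
    rw [hg.2 k, hg.2 (k % B j), hc, Nat.mod_mul_right_mod, Nat.mod_mul_right_div_self, ← add_assoc,
      mul_assoc, ← mul_add, ← Nat.div_div_eq_div_mul, Nat.div_add_mod]

/-- The group. -/
def GG : Subgroup (Equiv.Perm ℕ) where
  carrier := {g | ∃ i, Lv i g}
  mul_mem' := by
    rintro g h ⟨i, hi⟩ ⟨j, hj⟩
    exact ⟨max i j, (hi.mono (le_max_left _ _)).mul (hj.mono (le_max_right _ _))⟩
  one_mem' := ⟨0, Lv.one 0⟩
  inv_mem' := by
    rintro g ⟨i, hi⟩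
    exact ⟨i, hi.inv⟩

/-- the permutation of level `i` with a given action on the first block -/
def lift (i : ℕ) (σ : Equiv.Perm (Fin (B i))) : Equiv.Perm ℕ where
  toFun k := B i * (k / B i) + σ ⟨k % B i, Nat.mod_lt _ (B_pos i)⟩
  invFun k := B i * (k / B i) + σ.symm ⟨k % B i, Nat.mod_lt _ (B_pos i)⟩
  left_inv := by
    intro k
    have h1 := (σ ⟨k % B i, Nat.mod_lt _ (B_pos i)⟩).2
    simp only [Nat.mul_add_div (B_pos i), Nat.div_eq_of_lt h1, add_zero, Nat.mul_add_mod,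
      Nat.mod_eq_of_lt h1, Fin.eta, Equiv.symm_apply_apply, Nat.div_add_mod]
  right_inv := by
    intro k
    have h1 := (σ.symm ⟨k % B i, Nat.mod_lt _ (B_pos i)⟩).2
    simp only [Nat.mul_add_div (B_pos i), Nat.div_eq_of_lt h1, add_zero, Nat.mul_add_mod,
      Nat.mod_eq_of_lt h1, Fin.eta, Equiv.apply_symm_apply, Nat.div_add_mod]

theorem lift_apply {i : ℕ} (σ : Equiv.Perm (Fin (B i))) {k : ℕ} (hk : k < B i) :
    lift i σ k = σ ⟨k, hk⟩ := by
  show B i * (k / B i) + (σ ⟨k % B i, _⟩ : ℕ) = _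
  simp only [Nat.div_eq_of_lt hk, mul_zero, zero_add, Nat.mod_eq_of_lt hk]

theorem lv_lift (i : ℕ) (σ : Equiv.Perm (Fin (B i))) : Lv i (lift i σ) := by
  refine ⟨fun k hk => ?_, fun k => ?_⟩
  · rw [lift_apply σ hk]
    exact Fin.is_lt _
  · rw [lift_apply σ (Nat.mod_lt k (B_pos i))]
    rfl

/-- a small subset of the first block can be moved into a larger one -/
theorem exists_move (i : ℕ) (A C : Finset ℕ) (hA : ∀ a ∈ A, a < B i) (hC : ∀ a ∈ C, a < B i)
    (h : C.card ≤ A.card) : ∃ g : Equiv.Perm ℕ, Lv i g ∧ ∀ a ∈ C, g a ∈ A := by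
  classical
  obtain ⟨A', hA', hc⟩ := Finset.exists_subset_card_eq h
  have e : {x : Fin (B i) // (x : ℕ) ∈ C} ≃ {x : Fin (B i) // (x : ℕ) ∈ A'} := by
    have e1 : {x : Fin (B i) // (x : ℕ) ∈ C} ≃ C :=
      ⟨fun x => ⟨x.1, x.2⟩, fun x => ⟨⟨x.1, hC _ x.2⟩, x.2⟩, fun x => rfl, fun x => rfl⟩
    have e2 : {x : Fin (B i) // (x : ℕ) ∈ A'} ≃ A' :=
      ⟨fun x => ⟨x.1, x.2⟩, fun x => ⟨⟨x.1, hA _ (hA' x.2)⟩, x.2⟩, fun x => rfl, fun x => rfl⟩
    exact e1.trans ((Finset.equivOfCardEq hc.symm).trans e2.symm)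
  refine ⟨lift i (Equiv.extendSubtype e), lv_lift _ _, fun a ha => ?_⟩
  rw [lift_apply _ (hC a ha)]
  have h1 := Equiv.extendSubtype_mem e ⟨a, hC a ha⟩ ha
  exact hA' h1

/-- a small set can be moved off itself -/
theorem exists_moveOff (i : ℕ) (C : Finset ℕ) (hC : ∀ a ∈ C, a < B i) (h : 2 * C.card ≤ B i) :
    ∃ g : Equiv.Perm ℕ, Lv i g ∧ ∀ a ∈ C, g a ∉ C := by
  classical
  obtain ⟨g, hg, hg'⟩ := exists_move i (Finset.range (B i) \ C) C
    (fun a ha => Finset.mem_range.1 (Finset.mem_sdiff.1 ha).1) hC (by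
      rw [Finset.card_sdiff_of_subset fun a ha => Finset.mem_range.2 (hC a ha), Finset.card_range]
      omega)
  exact ⟨g, hg, fun a ha => (Finset.mem_sdiff.1 (hg' a ha)).2⟩

/-- counting the numbers with a given digit -/
theorem card_dg_le {j l : ℕ} (h : j < l) :
    ((Finset.range (B l)).filter fun a => dg j a = 1).card * 2 ^ (2 * j + 1) ≤ B l := by
  classical
  obtain ⟨c, hc⟩ := B_dvd (Nat.succ_le_of_lt h)
  have h1 : B l = B j * 2 ^ (2 * j + 1) * c := by rw [hc, Nat.succ_eq_add_one, B_succ]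
  have h2 : ((Finset.range (B l)).filter fun a => dg j a = 1).card ≤
      (Finset.range (B j * c)).card := by
    refine Finset.card_le_card_of_injOn (fun a => a % B j + B j * (a / (B j * 2 ^ (2 * j + 1))))
      ?_ ?_
    · intro a ha
      rw [Finset.mem_coe, Finset.mem_filter, Finset.mem_range] at ha
      rw [Finset.mem_coe, Finset.mem_range]
      have h3 : a / (B j * 2 ^ (2 * j + 1)) < c := by
        rw [Nat.div_lt_iff_lt_mul (by have := B_pos j; positivity), mul_comm, ← h1]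
        exact ha.1
      have h4 := Nat.mod_lt a (B_pos j)
      calc a % B j + B j * (a / (B j * 2 ^ (2 * j + 1))) <
          B j + B j * (a / (B j * 2 ^ (2 * j + 1))) := by omega
        _ = B j * (a / (B j * 2 ^ (2 * j + 1)) + 1) := by ring
        _ ≤ B j * c := Nat.mul_le_mul_left _ h3
    · intro a ha b hb hab
      rw [Finset.mem_coe, Finset.mem_filter] at ha hb
      simp only at hab
      have ha2 := ha.2
      have hb2 := hb.2
      unfold dg at ha2 hb2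
      have ea := Nat.div_add_mod a (B j)
      have eb := Nat.div_add_mod b (B j)
      have ea2 := Nat.div_add_mod (a / B j) (2 ^ (2 * j + 1))
      have eb2 := Nat.div_add_mod (b / B j) (2 ^ (2 * j + 1))
      rw [Nat.div_div_eq_div_mul, ha2] at ea2
      rw [Nat.div_div_eq_div_mul, hb2] at eb2
      have h5 : a % B j = b % B j := by
        have := congrArg (fun z => z % B j) hab
        simpa [Nat.add_mul_mod_self_left] using this
      have h6 : a / (B j * 2 ^ (2 * j + 1)) = b / (B j * 2 ^ (2 * j + 1)) := by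
        rw [h5] at hab
        exact Nat.eq_of_mul_eq_mul_left (B_pos j) (Nat.add_left_cancel hab)
      rw [← ea, ← eb, ← ea2, ← eb2, h5, h6]
  rw [Finset.card_range] at h2
  calc _ ≤ B j * c * 2 ^ (2 * j + 1) := Nat.mul_le_mul_right _ h2
    _ = B l := by rw [h1]; ring

end Pool.Agent.Y562.ES
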