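import Mathlib

/-!
# Externally definable sets and the semigroup of external types of a definable group

The group is given by a group structure on the universe of the structure whose multiplication is
one of the function symbols.
-/

set_option autoImplicit false

open FirstOrder FirstOrder.Language FirstOrder.Language.Structure

namespace Pool.Agent.Y562.ES

/-- `X ⊆ M^n` is externally definable: it is the trace on `M` of a set which is definable with
parameters in an elementary extension `N₀` of `M`. -/
def ExtDef (L : FirstOrder.Language.{0, 0}) (M : Type) [L.Structure M] {n : ℕ} (X : Set (Fin n → M)) : Prop :=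
  ∃ (N₀ : Type) (_ : L.Structure N₀) (j : M ↪ₑ[L] N₀) (m : ℕ) (φ : L.Formula (Fin n ⊕ Fin m))
    (b : Fin m → N₀), X = {a | φ.Realize (Sum.elim (j ∘ a) b)}

/-- The language with a predicate for every externally definable subset of every power of `M`. -/
def extLang (L : FirstOrder.Language.{0, 0}) (M : Type) [L.Structure M] : FirstOrder.Language.{0, 0} :=
  ⟨fun _ => Empty, fun n => {X : Set (Fin n → M) // ExtDef L M X}⟩

/-- The expansion of `M` by all externally definable sets. -/
instance extStructure (L : FirstOrder.Language.{0, 0}) (M : Type) [L.Structure M] :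
    (extLang L M).Structure M where
  funMap := fun f => f.elim
  RelMap := fun X a => a ∈ X.1

/-- `U ⊆ G` is externally definable. -/
def ExtDefSet (L : FirstOrder.Language.{0, 0}) (G : Type) [L.Structure G] (U : Set G) : Prop :=
  ExtDef L G {a : Fin 1 → G | a 0 ∈ U}

/-- `p` is an external type of the group with universe `G`: an ultrafilter on the Boolean algebra of
the externally definable subsets of `G`. -/
structure IsExtType (L : FirstOrder.Language.{0, 0}) {G : Type} [L.Structure G] (p : Set (Set G)) : Prop where
  extDef : ∀ U ∈ p, ExtDefSet L G U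
  inter : ∀ U ∈ p, ∀ V ∈ p, U ∩ V ∈ p
  mono : ∀ U ∈ p, ∀ V, ExtDefSet L G V → U ⊆ V → V ∈ p
  empty : ∅ ∉ p
  mem_or : ∀ U, ExtDefSet L G U → U ∈ p ∨ Uᶜ ∈ p

/-- The product of external types: `U ∈ p * q` if and only if `{g | g⁻¹ U ∈ q} ∈ p`. -/
def extMul (L : FirstOrder.Language.{0, 0}) {G : Type} [L.Structure G] [Group G] (p q : Set (Set G)) :
    Set (Set G) :=
  {U | ExtDefSet L G U ∧ {g : G | {x : G | g * x ∈ U} ∈ q} ∈ p}

/-- `I` is a left ideal of the semigroup of external types. -/
structure IsLeftIdeal (L : FirstOrder.Language.{0, 0}) {G : Type} [L.Structure G] [Group G]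
    (I : Set (Set (Set G))) : Prop where
  isExtType : ∀ p ∈ I, IsExtType L p
  nonempty : I.Nonempty
  mul_mem : ∀ p, IsExtType L p → ∀ q ∈ I, extMul L p q ∈ I

/-- `H` is an ideal subgroup: `H = u * I` for a minimal left ideal `I` and an idempotent `u ∈ I`. -/
def IsIdealSubgroup (L : FirstOrder.Language.{0, 0}) {G : Type} [L.Structure G] [Group G]
    (H : Set (Set (Set G))) : Prop :=
  ∃ I : Set (Set (Set G)), IsLeftIdeal L I ∧ (∀ I', IsLeftIdeal L I' → I' ⊆ I → I' = I) ∧
    ∃ u ∈ I, extMul L u u = u ∧ H = {h | ∃ q ∈ I, h = extMul L u q}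

/-- The restriction of `p` to `M`: the externally definable `U ⊆ M` whose predicate defines in `N` a
set that belongs to `p`. -/
def restr (L : FirstOrder.Language.{0, 0}) (M : Type) [L.Structure M] {N : Type} [(extLang L M).Structure N]
    (p : Set (Set N)) : Set (Set M) :=
  {U | ∃ h : ExtDefSet L M U,
    {x : N | RelMap (L := extLang L M) (M := N) (⟨_, h⟩ : (extLang L M).Relations 1) ![x]} ∈ p}

end Pool.Agent.Y562.ES
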