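import Pool.Agent.Y562.ES.Comb

/-!
# The parity of the number of special digits
-/

set_option autoImplicit false
set_option linter.unusedSectionVars false

namespace Pool.Agent.Y562.ES

/-- the number of `j` with `j`-th digit equal to `1` -/
def tot (k : ℕ) : ℕ := ((Finset.range k).filter fun j => dg j k = 1).card

/-- the number of `j < n` with `j`-th digit equal to `1` -/
def lowC (n k : ℕ) : ℕ := ((Finset.range n).filter fun j => dg j k = 1).card

/-- the number of `j ≥ n` with `j`-th digit equal to `1` -/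
def hiC (n k : ℕ) : ℕ := ((Finset.range k).filter fun j => n ≤ j ∧ dg j k = 1).card

theorem lt_of_dg {j k : ℕ} (h : dg j k = 1) : j < k := by
  by_contra hn
  rw [dg_eq_zero (not_lt.1 hn)] at h
  exact zero_ne_one h

theorem tot_eq {k R : ℕ} (h : k ≤ R) :
    tot k = ((Finset.range R).filter fun j => dg j k = 1).card := by
  unfold tot
  congr 1
  ext j
  simp only [Finset.mem_filter, Finset.mem_range]
  constructor
  · rintro ⟨h1, h2⟩
    exact ⟨h1.trans_le h, h2⟩
  · rintro ⟨_, h2⟩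
    exact ⟨lt_of_dg h2, h2⟩

theorem tot_split (n k : ℕ) : tot k = lowC n k + hiC n k := by
  classical
  unfold tot lowC hiC
  rw [← Finset.card_union_of_disjoint]
  · congr 1
    ext j
    simp only [Finset.mem_filter, Finset.mem_range, Finset.mem_union]
    constructor
    · rintro ⟨h1, h2⟩
      rcases lt_or_ge j n with h3 | h3
      · exact Or.inl ⟨h3, h2⟩
      · exact Or.inr ⟨h1, h3, h2⟩
    · rintro (⟨_, h2⟩ | ⟨h1, _, h2⟩)
      · exact ⟨lt_of_dg h2, h2⟩
      · exact ⟨h1, h2⟩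
  · rw [Finset.disjoint_left]
    intro j h1 h2
    simp only [Finset.mem_filter, Finset.mem_range] at h1 h2
    omega

theorem lowC_mod (n k : ℕ) : lowC n (k % B n) = lowC n k := by
  unfold lowC
  congr 1
  refine Finset.filter_congr fun j hj => ?_
  rw [dg_mod (Finset.mem_range.1 hj)]

theorem hiC_congr {n k l : ℕ} (h : ∀ j, n ≤ j → (dg j k = 1 ↔ dg j l = 1)) :
    hiC n k = hiC n l := by
  unfold hiC
  congr 1
  ext j
  simp only [Finset.mem_filter, Finset.mem_range]
  constructor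
  · rintro ⟨_, h2, h3⟩
    have := (h j h2).1 h3
    exact ⟨lt_of_dg this, h2, this⟩
  · rintro ⟨_, h2, h3⟩
    have := (h j h2).2 h3
    exact ⟨lt_of_dg this, h2, this⟩

/-- the numbers for which a digit between `n` and `i` of `k` or `g k` is equal to `1` -/
def Bad (n i : ℕ) (g : Equiv.Perm ℕ) : Set ℕ :=
  {k | ∃ j, n ≤ j ∧ j < i ∧ (dg j k = 1 ∨ dg j (g k) = 1)}

theorem hiC_apply {n i : ℕ} {g : Equiv.Perm ℕ} (hg : Lv i g) {k : ℕ} (hk : k ∉ Bad n i g) :
    hiC n (g k) = hiC n k := by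
  refine hiC_congr fun j hj => ?_
  rcases lt_or_ge j i with h | h
  · constructor
    · intro h1
      exact absurd ⟨j, hj, h, Or.inr h1⟩ hk
    · intro h1
      exact absurd ⟨j, hj, h, Or.inl h1⟩ hk
  · rw [dg_congr_div h (hg.div k)]

theorem mem_bad_mod {n i : ℕ} {g : Equiv.Perm ℕ} (hg : Lv i g) (k : ℕ) :
    k % B i ∈ Bad n i g ↔ k ∈ Bad n i g := by
  unfold Bad
  simp only [Set.mem_ofPred_eq]
  refine exists_congr fun j => and_congr_right fun _ => and_congr_right fun hj => ?_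
  rw [dg_mod hj, ← dg_mod hj (g k), hg.mod]

/-- there are few bad numbers -/
theorem card_bad_le {n i l : ℕ} {g : Equiv.Perm ℕ} (hg : Lv i g) (hl : i ≤ l) (S : Finset ℕ)
    (hS : ∀ a, a ∈ S ↔ a < B l ∧ a ∈ Bad n i g) : S.card * 2 ^ n ≤ 2 * B l := by
  classical
  -- one sided version
  set c : ℕ → Finset ℕ := fun j => (Finset.range (B l)).filter fun a => dg j a = 1 with hc
  have h0 : ∀ j < i, ((c j).card : ℚ) ≤ B l * (1 / 2 ^ j - 1 / 2 ^ (j + 1)) := by
    intro j hj
    have h1 := card_dg_le (lt_of_lt_of_le hj hl)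
    have h2 : (c j).card * 2 ^ (j + 1) ≤ B l :=
      (Nat.mul_le_mul_left _ (Nat.pow_le_pow_right (by norm_num) (by omega))).trans h1
    have h3 : ((c j).card : ℚ) * 2 ^ (j + 1) ≤ B l := by exact_mod_cast h2
    have h4 : (B l : ℚ) * (1 / 2 ^ j - 1 / 2 ^ (j + 1)) = B l / 2 ^ (j + 1) := by
      rw [pow_succ]
      field_simp
      ring
    rw [h4, le_div_iff₀ (by positivity)]
    exact h3
  have h1 : ∀ i' ≤ i, n ≤ i' → ((∑ j ∈ Finset.Ico n i', (c j).card : ℕ) : ℚ) ≤
      B l * (1 / 2 ^ n - 1 / 2 ^ i') := by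
    intro i' hi' hn
    induction i', hn using Nat.le_induction with
    | base => simp
    | succ k hk ih =>
      have h2 := ih (by omega)
      have h3 := h0 k (by omega)
      rw [Finset.sum_Ico_succ_top hk, Nat.cast_add]
      calc _ ≤ (B l : ℚ) * (1 / 2 ^ n - 1 / 2 ^ k) + B l * (1 / 2 ^ k - 1 / 2 ^ (k + 1)) :=
            add_le_add h2 h3
        _ = _ := by ring
  set S1 : Finset ℕ := (Finset.Ico n i).biUnion c with hS1
  have h2 : (S1.card : ℚ) ≤ B l / 2 ^ n := by
    rcases le_or_gt n i with hn | hn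
    · have h3 : (S1.card : ℚ) ≤ ((∑ j ∈ Finset.Ico n i, (c j).card : ℕ) : ℚ) := by
        exact_mod_cast Finset.card_biUnion_le
      refine h3.trans ((h1 i le_rfl hn).trans ?_)
      have h4 : (0 : ℚ) ≤ B l * (1 / 2 ^ i) := by positivity
      have h5 : (B l : ℚ) * (1 / 2 ^ n - 1 / 2 ^ i) = B l / 2 ^ n - B l * (1 / 2 ^ i) := by ring
      rw [h5]
      linarith
    · rw [hS1, Finset.Ico_eq_empty (by omega)]
      simp only [Finset.biUnion_empty, Finset.card_empty, Nat.cast_zero]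
      positivity
  have h3 : S1.card * 2 ^ n ≤ B l := by
    rw [le_div_iff₀ (by positivity)] at h2
    exact_mod_cast h2
  have hgl := hg.mono hl
  have h4 : S ⊆ S1 ∪ S1.image (g⁻¹ : Equiv.Perm ℕ) := by
    intro a ha
    obtain ⟨h5, j, h6, h7, h8⟩ := (hS a).1 ha
    rw [Finset.mem_union, Finset.mem_image]
    rcases h8 with h8 | h8
    · exact Or.inl (Finset.mem_biUnion.2 ⟨j, Finset.mem_Ico.2 ⟨h6, h7⟩,
        Finset.mem_filter.2 ⟨Finset.mem_range.2 h5, h8⟩⟩)
    · exact Or.inr ⟨g a, Finset.mem_biUnion.2 ⟨j, Finset.mem_Ico.2 ⟨h6, h7⟩,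
        Finset.mem_filter.2 ⟨Finset.mem_range.2 (hgl.1 a h5), h8⟩⟩,
        Equiv.symm_apply_apply g a⟩
  have h5 : S.card ≤ S1.card + S1.card :=
    (Finset.card_le_card h4).trans ((Finset.card_union_le _ _).trans
      (Nat.add_le_add_left Finset.card_image_le _))
  calc S.card * 2 ^ n ≤ (S1.card + S1.card) * 2 ^ n := Nat.mul_le_mul_right _ h5
    _ = 2 * (S1.card * 2 ^ n) := by ring
    _ ≤ 2 * B l := Nat.mul_le_mul_left _ h3

/-- changing the `k`-th digit -/
theorem exists_flip (k r : ℕ) (hr : r < B (k + 1)) : ∃ g : Equiv.Perm ℕ, Lv (k + 1) g ∧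
    ∀ a, a % B (k + 1) = r → g a % B k = a % B k ∧ g a / B (k + 1) = a / B (k + 1) ∧
      (dg k (g a) = 1 ↔ ¬ dg k a = 1) := by
  have hp : 2 ≤ 2 ^ (2 * k + 1) := by
    calc 2 = 2 ^ 1 := rfl
      _ ≤ 2 ^ (2 * k + 1) := Nat.pow_le_pow_right (by norm_num) (by omega)
  have hB := B_pos k
  set d : ℕ := if dg k r = 1 then 0 else 1 with hd
  have hd2 : d < 2 ^ (2 * k + 1) := by
    rw [hd]
    split_ifs <;> omega
  set r' : ℕ := B k * d + r % B k with hr'
  have hm := Nat.mod_lt r hB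
  have hr2 : r' < B (k + 1) := by
    rw [B_succ, hr']
    calc B k * d + r % B k < B k * d + B k := by omega
      _ = B k * (d + 1) := by ring
      _ ≤ B k * 2 ^ (2 * k + 1) := Nat.mul_le_mul_left _ hd2
  have hr3 : dg k r' = d := by
    unfold dg
    rw [hr', Nat.mul_add_div hB, Nat.div_eq_of_lt hm, add_zero, Nat.mod_eq_of_lt hd2]
  have hr4 : r' % B k = r % B k := by
    rw [hr', Nat.mul_add_mod, Nat.mod_mod]
  refine ⟨lift (k + 1) (Equiv.swap ⟨r, hr⟩ ⟨r', hr2⟩), lv_lift _ _, fun a ha => ?_⟩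
  have h1 := lv_lift (k + 1) (Equiv.swap ⟨r, hr⟩ ⟨r', hr2⟩)
  have h2 : lift (k + 1) (Equiv.swap ⟨r, hr⟩ ⟨r', hr2⟩) a % B (k + 1) = r' := by
    rw [h1.mod, lift_apply _ (Nat.mod_lt _ (B_pos _))]
    have : (⟨a % B (k + 1), Nat.mod_lt _ (B_pos _)⟩ : Fin (B (k + 1))) = ⟨r, hr⟩ := Fin.ext ha
    rw [this, Equiv.swap_apply_left]
  have hdvd : B k ∣ B (k + 1) := B_dvd (Nat.le_succ k)
  refine ⟨?_, h1.div a, ?_⟩
  · rw [← Nat.mod_mod_of_dvd _ hdvd, h2, hr4, ← ha, Nat.mod_mod_of_dvd _ hdvd]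
  · rw [← dg_mod (Nat.lt_succ_self k) (lift (k + 1) _ a), Nat.succ_eq_add_one, h2, hr3,
      ← dg_mod (Nat.lt_succ_self k) a, Nat.succ_eq_add_one, ha, hd]
    split_ifs with h <;> simp [h]

theorem even_tot_flip {x y k : ℕ} (h1 : ∀ j, j ≠ k → (dg j x = 1 ↔ dg j y = 1))
    (h2 : dg k x = 1 ↔ ¬ dg k y = 1) : Even (tot x) ↔ ¬ Even (tot y) := by
  classical
  wlog h3 : dg k x = 1 generalizing x y
  · have h4 : dg k y = 1 := by
      by_contra h
      exact h3 (h2.2 h)
    have := this (x := y) (y := x) (fun j hj => (h1 j hj).symm) (by tauto) h4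
    tauto
  have h4 := h2.1 h3
  rw [tot_eq (le_max_left x y), tot_eq (le_max_right x y)]
  have h5 : ((Finset.range (max x y)).filter fun j => dg j x = 1) =
      insert k ((Finset.range (max x y)).filter fun j => dg j y = 1) := by
    ext j
    simp only [Finset.mem_filter, Finset.mem_range, Finset.mem_insert]
    by_cases hj : j = k
    · subst hj
      simp only [true_or, iff_true]
      exact ⟨lt_of_lt_of_le (lt_of_dg h3) (le_max_left _ _), h3⟩
    · rw [h1 j hj]
      simp [hj]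
  rw [h5, Finset.card_insert_of_notMem (by simp [h4])]
  rw [Nat.even_add_one]

/-- the effect on the parity of changing a digit that `g` does not see -/
theorem even_tot_mul_flip {i k r : ℕ} (hik : i ≤ k) {g f : Equiv.Perm ℕ} (hg : Lv i g)
    (hf : ∀ a, a % B (k + 1) = r → f a % B k = a % B k ∧ f a / B (k + 1) = a / B (k + 1) ∧
      (dg k (f a) = 1 ↔ ¬ dg k a = 1)) {a : ℕ} (ha : a % B (k + 1) = r) :
    Even (tot (g (f a))) ↔ ¬ Even (tot (g a)) := by
  obtain ⟨h1, h2, h3⟩ := hf a ha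
  refine even_tot_flip (k := k) (fun j hj => ?_) ?_
  · rcases lt_or_ge j i with h | h
    · have h4 : g (f a) % B i = g a % B i := by
        rw [hg.mod, hg.mod]
        congr 1
        rw [← Nat.mod_mod_of_dvd (f a) (B_dvd hik), h1, Nat.mod_mod_of_dvd _ (B_dvd hik)]
      rw [← dg_mod h, h4, dg_mod h]
    · rw [dg_congr_div h (hg.div (f a)), dg_congr_div h (hg.div a)]
      rcases lt_or_gt_of_ne hj with h4 | h4
      · rw [← dg_mod h4, h1, dg_mod h4]
      · rw [dg_congr_div (Nat.succ_le_of_lt h4) h2]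
  · rw [dg_congr_div hik (hg.div (f a)), dg_congr_div hik (hg.div a)]
    exact h3

end Pool.Agent.Y562.ES
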