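import Pool.Agent.Y562.ES.Basic
import Pool.Agent.Y562.ES.Par

/-!
# The ideal subgroups over the standard model
-/

set_option autoImplicit false
set_option linter.unusedSectionVars false

open FirstOrder FirstOrder.Language FirstOrder.Language.Structure

namespace Pool.Agent.Y562.ES

/-- the function symbols: one binary symbol -/
def FSym : ℕ → Type
  | 2 => Unit
  | _ => Empty

/-- the language with a symbol for the multiplication and a predicate for every relation on the
group -/
def L0 : FirstOrder.Language.{0, 0} := ⟨FSym, fun n => Set (Fin n → GG)⟩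

/-- the symbol of the multiplication -/
def mu0 : L0.Functions 2 := ()

instance strGG : L0.Structure GG where
  funMap := fun {n} f v => match n, f, v with
    | 2, _, v => v 0 * v 1
    | 0, f, _ => f.elim
    | 1, f, _ => f.elim
    | (_ + 3), f, _ => f.elim
  RelMap := fun {n} (R : Set (Fin n → GG)) v => v ∈ R

theorem funMap_mu0 (x y : GG) : funMap mu0 ![x, y] = x * y := rfl

theorem extDef_GG {n : ℕ} (X : Set (Fin n → GG)) : ExtDef L0 GG X := by
  refine FA.extDef ⟨0, Relations.formula (L := L0) (n := n) (X : L0.Relations n)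
    (fun i => Term.var (Sum.inl i)), fun A => ⟨Fin.elim0, fun a _ => ?_⟩⟩
  have h := Formula.realize_rel (L := L0) (M := GG) (α := Fin n ⊕ Fin 0)
    (R := (show L0.Relations n from X)) (ts := fun i => Term.var (Sum.inl i))
    (v := Sum.elim a Fin.elim0)
  exact h.symm

theorem extDefSet_GG (U : Set GG) : ExtDefSet L0 GG U := extDef_GG _

section cover

variable {L : FirstOrder.Language.{0, 0}} {G : Type} [L.Structure G] [Group G]

theorem IsExtType.exists_mem_cover {p : Set (Set G)} (hp : IsExtType L p) {n : ℕ}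
    (A : Fin n → Set G) (hA : ∀ t, ExtDefSet L G (A t)) (hc : ∀ x, ∃ t, x ∈ A t) :
    ∃ t, A t ∈ p := by
  classical
  by_contra hcon
  push Not at hcon
  have h1 : ∀ T : Finset (Fin n), {x : G | ∀ t ∈ T, x ∉ A t} ∈ p := by
    intro T
    induction T using Finset.induction_on with
    | empty =>
      have : {x : G | ∀ t ∈ (∅ : Finset (Fin n)), x ∉ A t} = Set.univ := by
        ext x
        simp
      rw [this]
      exact hp.univ_mem
    | insert t T ht ih =>
      have h2 := hp.inter _ ((hp.compl_mem (hA t)).2 (hcon t)) _ ih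
      have h3 : {x : G | ∀ t' ∈ insert t T, x ∉ A t'} = (A t)ᶜ ∩ {x : G | ∀ t ∈ T, x ∉ A t} := by
        ext x
        simp only [Finset.mem_insert, forall_eq_or_imp, Set.mem_ofPred_eq, Set.mem_inter_iff,
          Set.mem_compl_iff]
      rw [h3]
      exact h2
  have h2 := h1 Finset.univ
  have h3 : {x : G | ∀ t ∈ (Finset.univ : Finset (Fin n)), x ∉ A t} = ∅ := by
    ext x
    simpa using hc x
  rw [h3] at h2
  exact hp.empty h2

end cover

/-- the elements which map `0` to a number with an even number of special digits -/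
def W0 : Set GG := {g | Even (tot (g.1 0))}

theorem base_part (H : Set (Set (Set GG))) (hH : IsIdealSubgroup L0 H) :
    ∃ s ∈ H, ∃ s' ∈ H, (W0 ∈ s' ↔ W0 ∉ s) := by
  obtain ⟨I, hI, hmin, u, hu, huu, rfl⟩ := hH
  have hut := hI.isExtType u hu
  -- the residues
  have h1 : ∀ k, ∃ r, r < B (k + 1) ∧ {x : GG | x.1 0 % B (k + 1) = r} ∈ u := by
    intro k
    obtain ⟨t, ht⟩ := hut.exists_mem_cover (n := B (k + 1)) (fun t => {x : GG | x.1 0 % B (k + 1) = t})
      (fun t => extDefSet_GG _) (fun x => ⟨⟨x.1 0 % B (k + 1), Nat.mod_lt _ (B_pos _)⟩, rfl⟩)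
    exact ⟨t, t.2, ht⟩
  choose r hr hru using h1
  have h2 : ∀ k, ∃ g : GG, ∀ a, a % B (k + 1) = r k → g.1 a % B k = a % B k ∧
      g.1 a / B (k + 1) = a / B (k + 1) ∧ (dg k (g.1 a) = 1 ↔ ¬ dg k a = 1) := by
    intro k
    obtain ⟨g, hg, hg'⟩ := exists_flip k (r k) (hr k)
    exact ⟨⟨g, k + 1, hg⟩, hg'⟩
  choose f hf using h2
  set p : Set (Set GG) := ofUF L0 ((Filter.hyperfilter ℕ).map f) with hp
  have hpt : IsExtType L0 p := ofUF_isExtType _
  set q := extMul L0 p u with hq
  have hqI : q ∈ I := hI.mul_mem p hpt u hu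
  refine ⟨u, ⟨u, hu, huu.symm⟩, extMul L0 u q, ⟨q, hqI, rfl⟩, ?_⟩
  rw [mem_extMul (extDefSet_GG _)]
  -- the key
  have key : ∀ g : GG, {x : GG | g * x ∈ W0} ∈ q ↔ {x : GG | g * x ∈ W0} ∉ u := by
    intro g
    obtain ⟨i, hi⟩ := g.2
    rw [hq, mem_extMul (extDefSet_GG _)]
    have h3 : ∀ k, i ≤ k → ({x : GG | f k * x ∈ {x : GG | g * x ∈ W0}} ∈ u ↔
        {x : GG | g * x ∈ W0} ∉ u) := by
      intro k hk
      have h4 : ∀ x : GG, x.1 0 % B (k + 1) = r k → (g * (f k * x) ∈ W0 ↔ ¬ g * x ∈ W0) := by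
        intro x hx
        exact even_tot_mul_flip hk hi (hf k) hx
      constructor
      · intro h5 h6
        have h7 := hut.inter _ (hut.inter _ h5 _ h6) _ (hru k)
        have h8 : {x : GG | f k * x ∈ {x : GG | g * x ∈ W0}} ∩ {x : GG | g * x ∈ W0} ∩
            {x : GG | x.1 0 % B (k + 1) = r k} = ∅ := by
          ext x
          simp only [Set.mem_inter_iff, Set.mem_ofPred_eq, Set.mem_empty_iff_false, iff_false]
          rintro ⟨⟨h9, h10⟩, h11⟩
          exact (h4 x h11).1 h9 h10
        rw [h8] at h7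
        exact hut.empty h7
      · intro h6
        have h7 := hut.inter _ ((hut.compl_mem (extDefSet_GG _)).2 h6) _ (hru k)
        refine hut.mono _ h7 _ (extDefSet_GG _) ?_
        rintro x ⟨h8, h9⟩
        exact (h4 x h9).2 h8
    constructor
    · intro h5
      have h6 := h5.2
      rw [Ultrafilter.mem_map] at h6
      have h7 : ∀ᶠ k in (Filter.hyperfilter ℕ : Filter ℕ), i ≤ k :=
        Nat.hyperfilter_le_atTop (Filter.eventually_ge_atTop i)
      obtain ⟨k, h8, h9⟩ := (h7.and h6).exists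
      exact (h3 k h8).1 h9
    · intro h5
      refine ⟨extDefSet_GG _, ?_⟩
      rw [Ultrafilter.mem_map]
      have h7 : ∀ᶠ k in (Filter.hyperfilter ℕ : Filter ℕ), i ≤ k :=
        Nat.hyperfilter_le_atTop (Filter.eventually_ge_atTop i)
      filter_upwards [h7] with k hk
      exact (h3 k hk).2 h5
  have h3 : {g : GG | {x : GG | g * x ∈ W0} ∈ q} = {g : GG | {x : GG | g * x ∈ W0} ∈ u}ᶜ := by
    ext g
    exact key g
  rw [h3, hut.compl_mem (extDefSet_GG _)]
  have h4 : W0 ∈ u ↔ {g : GG | {x : GG | g * x ∈ W0} ∈ u} ∈ u := by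
    conv_lhs => rw [← huu]
    rw [mem_extMul (extDefSet_GG _)]
  rw [h4]

end Pool.Agent.Y562.ES
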