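import Pool.Agent.Y562.ES.Prox

/-!
# No ideal subgroup over the ultrapower restricts to an ideal subgroup
-/

set_option autoImplicit false
set_option linter.unusedSectionVars false

open FirstOrder FirstOrder.Language FirstOrder.Language.Structure Filter

namespace Pool.Agent.Y562.ES

noncomputable instance extNG : (extLang L0 GG).Structure NG :=
  Ultraproduct.structure (L := extLang L0 GG) (M := fun _ : ℕ => GG) (u := UF)

theorem sum_eq : (sumStructure L0 (extLang L0 GG) NG) =
    Ultraproduct.structure (L := L0.sum (extLang L0 GG)) (M := fun _ : ℕ => GG) (u := UF) := by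
  refine Structure.ext ?_ ?_
  · funext n f
    rcases f with f | f <;> rfl
  · funext n f
    rcases f with f | f <;> rfl

/-- the diagonal embedding -/
noncomputable def diag : GG ↪ₑ[L0.sum (extLang L0 GG)] NG where
  toFun x := mk fun _ => x
  map_formula' := by
    intro n φ x
    rw [sum_eq]
    have := Ultraproduct.realize_formula_cast (L := L0.sum (extLang L0 GG))
      (M := fun _ : ℕ => GG) (u := UF) φ (fun i _ => x i)
    refine this.trans ?_
    simp

theorem W0_symbol (h : ExtDefSet L0 GG W0) :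
    {x : NG | RelMap (L := extLang L0 GG) (M := NG) (⟨_, h⟩ : (extLang L0 GG).Relations 1) ![x]} =
      tl (fun _ => {a | Even (tot a)}) := by
  ext x
  obtain ⟨f, rfl⟩ := mk_surj x
  rw [mem_tl, Set.mem_ofPred_eq]
  have h1 := @relMap_quotient_mk' (extLang L0 GG) (ℕ → GG)
    ((UF : Filter ℕ).productSetoid fun _ => GG)
    (Ultraproduct.setoidPrestructure (fun _ : ℕ => GG) UF) 1
    (⟨_, h⟩ : (extLang L0 GG).Relations 1) ![f]
  have e : (fun i : Fin 1 => (⟦(![f] : Fin 1 → ℕ → GG) i⟧ :
      Quotient ((UF : Filter ℕ).productSetoid fun _ => GG))) = ![mk f] := by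
    funext i
    fin_cases i
    rfl
  rw [e] at h1
  exact h1

theorem no_ideal_subgroup : ¬ ∃ H : Set (Set (Set NG)), IsIdealSubgroup L0 H ∧
    IsIdealSubgroup L0 (restr L0 GG '' H) := by
  rintro ⟨H, hH, hH'⟩
  obtain ⟨s, ⟨t, ht, rfl⟩, s', ⟨t', ht', rfl⟩, h⟩ := base_part _ hH'
  have h1 : ∀ p : Set (Set NG), W0 ∈ restr L0 GG p ↔ tl (fun _ => {a | Even (tot a)}) ∈ p := by
    intro p
    constructor
    · rintro ⟨h2, h3⟩
      rw [W0_symbol] at h3
      exact h3
    · intro h2
      refine ⟨extDefSet_GG _, ?_⟩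
      rw [W0_symbol]
      exact h2
  rw [h1, h1, top_part H hH t t' ht ht'] at h
  tauto

theorem main : ∃ (L : FirstOrder.Language.{0, 0}) (mu : L.Functions 2) (M N : Type) (_ : Group M)
    (_ : Group N) (_ : L.Structure M) (_ : L.Structure N) (_ : (extLang L M).Structure N),
    Nonempty (M ↪ₑ[L.sum (extLang L M)] N) ∧
    (∀ x y : M, funMap mu ![x, y] = x * y) ∧ (∀ x y : N, funMap mu ![x, y] = x * y) ∧
    ¬ ∃ H : Set (Set (Set N)), IsIdealSubgroup L H ∧ IsIdealSubgroup L (restr L M '' H) :=
  ⟨L0, mu0, GG, NG, inferInstance, inferInstance, inferInstance, inferInstance, extNG, ⟨diag⟩,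
    funMap_mu0, funMap_mul, no_ideal_subgroup⟩

end Pool.Agent.Y562.ES
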