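import Pool.Agent.Y562.ES.MPart

/-!
# The ultrapower
-/

set_option autoImplicit false
set_option linter.unusedSectionVars false

open FirstOrder FirstOrder.Language FirstOrder.Language.Structure Filter

namespace Pool.Agent.Y562.ES

/-- the ultrafilter -/
noncomputable abbrev UF : Ultrafilter ℕ := hyperfilter ℕ

/-- the ultrapower of the group -/
abbrev NG : Type := (UF : Filter ℕ).Product (fun _ : ℕ => GG)

/-- the class of a sequence -/
noncomputable def mk (f : ℕ → GG) : NG := (f : (UF : Filter ℕ).Product (fun _ : ℕ => GG))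

theorem mk_surj (x : NG) : ∃ f, mk f = x := Quotient.exists_rep x

theorem mk_eq {f g : ℕ → GG} : mk f = mk g ↔ ∀ᶠ n in (UF : Filter ℕ), f n = g n :=
  Quotient.eq''

theorem funMap_mk (f g : ℕ → GG) : funMap mu0 ![mk f, mk g] = mk (fun n => f n * g n) := by
  have h := Ultraproduct.funMap_cast (L := L0) (M := fun _ : ℕ => GG) (u := UF) mu0 ![f, g]
  have e : (fun i => ((![f, g] i : ℕ → GG) : (UF : Filter ℕ).Product (fun _ : ℕ => GG))) =
      ![mk f, mk g] := by
    funext i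
    fin_cases i <;> rfl
  rw [e] at h
  exact h.trans rfl

noncomputable instance : Mul NG := ⟨fun x y => funMap mu0 ![x, y]⟩

theorem mk_mul (f g : ℕ → GG) : mk f * mk g = mk (fun n => f n * g n) := funMap_mk f g

noncomputable instance : One NG := ⟨mk fun _ => 1⟩

theorem mk_one : (1 : NG) = mk fun _ => 1 := rfl

noncomputable instance : Inv NG := ⟨fun x => mk fun n => (Classical.choose (mk_surj x) n)⁻¹⟩

noncomputable instance : Group NG := Group.ofLeftAxioms
  (by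
    intro x y z
    obtain ⟨f, rfl⟩ := mk_surj x
    obtain ⟨g, rfl⟩ := mk_surj y
    obtain ⟨h, rfl⟩ := mk_surj z
    simp only [mk_mul, mul_assoc])
  (by
    intro x
    obtain ⟨f, rfl⟩ := mk_surj x
    simp only [mk_one, mk_mul, one_mul])
  (by
    intro x
    have h := Classical.choose_spec (mk_surj x)
    calc x⁻¹ * x = mk (fun n => (Classical.choose (mk_surj x) n)⁻¹) *
          mk (Classical.choose (mk_surj x)) := by rw [h]; rfl
      _ = 1 := by
        rw [mk_mul, mk_one, mk_eq]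
        exact Eventually.of_forall fun n => inv_mul_cancel _)

theorem funMap_mul (x y : NG) : funMap mu0 ![x, y] = x * y := rfl

/-- the elements `[x]` with `x n 0 ∈ O n` for almost all `n` -/
def tl (O : ℕ → Set ℕ) : Set NG := {x | ∃ f, mk f = x ∧ ∀ᶠ n in (UF : Filter ℕ), (f n).1 0 ∈ O n}

theorem mem_tl {O : ℕ → Set ℕ} {f : ℕ → GG} :
    mk f ∈ tl O ↔ ∀ᶠ n in (UF : Filter ℕ), (f n).1 0 ∈ O n := by
  constructor
  · rintro ⟨g, h1, h2⟩
    filter_upwards [mk_eq.1 h1, h2] with n h3 h4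
    rw [← h3]
    exact h4
  · intro h
    exact ⟨f, rfl, h⟩

theorem tl_compl (O : ℕ → Set ℕ) : (tl O)ᶜ = tl (fun n => (O n)ᶜ) := by
  ext x
  obtain ⟨f, rfl⟩ := mk_surj x
  rw [Set.mem_compl_iff, mem_tl, mem_tl, ← Ultrafilter.eventually_not]
  rfl

theorem tl_inter (O O' : ℕ → Set ℕ) : tl O ∩ tl O' = tl (fun n => O n ∩ O' n) := by
  ext x
  obtain ⟨f, rfl⟩ := mk_surj x
  rw [Set.mem_inter_iff, mem_tl, mem_tl, mem_tl, ← eventually_and]
  rfl

theorem tl_mono {O O' : ℕ → Set ℕ} (h : ∀ᶠ n in (UF : Filter ℕ), O n ⊆ O' n) : tl O ⊆ tl O' := by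
  intro x hx
  obtain ⟨f, rfl⟩ := mk_surj x
  rw [mem_tl] at hx ⊢
  filter_upwards [h, hx] with n h1 h2 using h1 h2

theorem mul_mem_tl {O : ℕ → Set ℕ} {g : ℕ → GG} {x : NG} :
    mk g * x ∈ tl O ↔ x ∈ tl (fun n => {a | (g n).1 a ∈ O n}) := by
  obtain ⟨f, rfl⟩ := mk_surj x
  rw [mk_mul, mem_tl, mem_tl]
  rfl

/-- elements with prescribed value at `0` -/
def el (n : ℕ) : GG :=
  ⟨lift n (Equiv.swap ⟨0, B_pos n⟩ ⟨n, lt_B n⟩), n, lv_lift _ _⟩

theorem el_zero (n : ℕ) : (el n).1 0 = n := by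
  show lift n (Equiv.swap ⟨0, B_pos n⟩ ⟨n, lt_B n⟩) 0 = n
  rw [lift_apply _ (B_pos n), Equiv.swap_apply_left]

theorem extDef_tl (O : ℕ → Set ℕ) : ExtDefSet L0 NG (tl O) := by
  rw [extDefSet_iff]
  let R : Set (Fin 2 → GG) := {v | (v 0).1 0 ∈ O ((v 1).1 0)}
  let φ : L0.Formula (Fin 1 ⊕ Fin 1) := Relations.formula (L := L0) (n := 2)
    (show L0.Relations 2 from R) (fun i => Term.var (![Sum.inl 0, Sum.inr 0] i))
  refine ⟨1, φ, fun A => ⟨fun _ => mk el, fun a _ => ?_⟩⟩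
  obtain ⟨f, rfl⟩ := mk_surj a
  rw [mem_tl]
  have h := Ultraproduct.realize_formula_cast (L := L0) (M := fun _ : ℕ => GG) (u := UF) φ
    (Sum.elim (fun _ => f) (fun _ => el))
  have e : (fun i => (((Sum.elim (fun _ => f) (fun _ => el) : Fin 1 ⊕ Fin 1 → ℕ → GG) i :
      ℕ → GG) : (UF : Filter ℕ).Product (fun _ : ℕ => GG))) =
      Sum.elim (fun _ => mk f) (fun _ => mk el) := by
    funext i
    rcases i with i | i <;> rfl
  rw [e] at h
  refine Iff.trans ?_ h.symm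
  refine eventually_congr (Eventually.of_forall fun n => ?_)
  have h2 := Formula.realize_rel (L := L0) (M := GG) (α := Fin 1 ⊕ Fin 1)
    (R := (show L0.Relations 2 from R)) (ts := fun i => Term.var (![Sum.inl 0, Sum.inr 0] i))
    (v := fun i => (Sum.elim (fun _ => f) (fun _ => el) : Fin 1 ⊕ Fin 1 → ℕ → GG) i n)
  refine Iff.trans ?_ h2.symm
  show (f n).1 0 ∈ O n ↔ (f n).1 0 ∈ O ((el n).1 0)
  rw [el_zero]

section types

variable {p : Set (Set NG)} (hp : IsExtType L0 p)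

include hp

theorem tl_mem_mono {O O' : ℕ → Set ℕ} (h : ∀ᶠ n in (UF : Filter ℕ), O n ⊆ O' n)
    (hO : tl O ∈ p) : tl O' ∈ p :=
  hp.mono _ hO _ (extDef_tl _) (tl_mono h)

theorem tl_mem_inter {O O' : ℕ → Set ℕ} (hO : tl O ∈ p) (hO' : tl O' ∈ p) :
    tl (fun n => O n ∩ O' n) ∈ p := by
  rw [← tl_inter]
  exact hp.inter _ hO _ hO'

theorem tl_mem_compl {O : ℕ → Set ℕ} : tl (fun n => (O n)ᶜ) ∈ p ↔ tl O ∉ p := by
  rw [← tl_compl]
  exact hp.compl_mem (extDef_tl _)

theorem tl_ne {O : ℕ → Set ℕ} (hO : tl O ∈ p) : ∃ f : ℕ → GG,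
    ∀ᶠ n in (UF : Filter ℕ), (f n).1 0 ∈ O n := by
  have : (tl O).Nonempty := by
    rw [Set.nonempty_iff_ne_empty]
    intro h
    rw [h] at hO
    exact hp.empty hO
  obtain ⟨x, f, _, h⟩ := this
  exact ⟨f, h⟩

theorem exists_res (m : ℕ) (hm : 0 < m) : ∃ t, tl (fun _ => {a | a % m = t}) ∈ p := by
  obtain ⟨t, ht⟩ := hp.exists_mem_cover (n := m) (fun t => tl (fun _ => {a | a % m = t}))
    (fun t => extDef_tl _) (fun x => by
      obtain ⟨f, rfl⟩ := mk_surj x
      by_contra hcon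
      push Not at hcon
      have h1 : ∀ t : Fin m, ∀ᶠ n in (UF : Filter ℕ), ¬ (f n).1 0 % m = t := by
        intro t
        have := hcon t
        rw [mem_tl] at this
        exact Ultrafilter.eventually_not.2 this
      have h2 := Filter.eventually_all.2 h1
      obtain ⟨n, hn⟩ := h2.exists
      exact hn ⟨(f n).1 0 % m, Nat.mod_lt _ hm⟩ rfl)
  exact ⟨t, ht⟩

end types

end Pool.Agent.Y562.ES
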