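import Pool.Agent.Y562.ES.NDefs

/-!
# The ideal subgroups over the ultrapower
-/

set_option autoImplicit false
set_option linter.unusedSectionVars false

open FirstOrder FirstOrder.Language FirstOrder.Language.Structure Filter

namespace Pool.Agent.Y562.ES

/-- a representing sequence -/
noncomputable def rep (x : NG) : ℕ → GG := Classical.choose (mk_surj x)

theorem mk_rep (x : NG) : mk (rep x) = x := Classical.choose_spec (mk_surj x)

/-- the level of an element -/
noncomputable def lev (g : GG) : ℕ := Classical.choose g.2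

theorem lv_lev (g : GG) : Lv (lev g) g.1 := Classical.choose_spec g.2

theorem one_mul_mem_tl {O : ℕ → Set ℕ} : {x : NG | 1 * x ∈ tl O} = tl O := by
  ext x
  rw [Set.mem_ofPred_eq, one_mul]

section

variable {I : Set (Set (Set NG))} (hI : IsLeftIdeal L0 I)
  (hmin : ∀ I', IsLeftIdeal L0 I' → I' ⊆ I → I' = I)

/-- the common level -/
noncomputable def clev (F : Finset NG) (l : ℕ → ℕ) (n : ℕ) : ℕ :=
  max (l n) (F.sup fun g => lev (rep g n))

theorem le_clev (F : Finset NG) (l : ℕ → ℕ) (n : ℕ) : l n ≤ clev F l n := le_max_left _ _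

theorem lv_clev (F : Finset NG) (l : ℕ → ℕ) (n : ℕ) {g : NG} (hg : g ∈ F) :
    Lv (clev F l n) (rep g n).1 :=
  (lv_lev _).mono ((Finset.le_sup (f := fun g => lev (rep g n)) hg).trans (le_max_right _ _))

include hI hmin

/-- small sets do not belong to minimal types -/
theorem small {q : Set (Set NG)} (hq : q ∈ I) (O : ℕ → Set ℕ) (l : ℕ → ℕ)
    (hmod : ∀ n a, a % B (l n) ∈ O n ↔ a ∈ O n)
    (hcard : ∀ n k, l n ≤ k → ∀ S : Finset ℕ, (∀ a, a ∈ S ↔ a < B k ∧ a ∈ O n) →
      S.card * 2 ^ n ≤ 2 * B k) : tl O ∉ q := by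
  classical
  intro hO
  have hqt := hI.isExtType q hq
  obtain ⟨F, hF⟩ := syndetic funMap_mul hI hmin hq hO
  set O' : ℕ → Set ℕ := fun n => {a | ∃ g ∈ F, (rep g n).1 a ∈ O n} with hO'
  have h1 : ∀ k : NG, {x | k * x ∈ tl O'} ∈ q := by
    intro k
    obtain ⟨g, hg, h⟩ := hF k
    refine hqt.mono _ h _ ((extDef_tl O').translate mu0 funMap_mul k) ?_
    intro x hx
    rw [Set.mem_ofPred_eq, ← mk_rep g, mul_mem_tl] at hx
    refine tl_mono (Eventually.of_forall fun n => ?_) hx
    intro a ha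
    exact ⟨g, hg, ha⟩
  -- periodicity of `O'`
  have hmod' : ∀ n a, a % B (clev F l n) ∈ O' n ↔ a ∈ O' n := by
    intro n a
    refine exists_congr fun g => and_congr_right fun hg => ?_
    rw [← (lv_clev F l n hg).mod, ← hmod n, Nat.mod_mod_of_dvd _ (B_dvd (le_clev F l n)), hmod n]
  -- the permutations
  have h2 : ∀ n, ∃ g : GG, 4 * F.card ≤ 2 ^ n → ∀ a ∈ O' n, g.1 a ∉ O' n := by
    intro n
    by_cases hn : 4 * F.card ≤ 2 ^ n
    swap
    · exact ⟨1, fun h => absurd h hn⟩
    set C : Finset ℕ := (Finset.range (B (clev F l n))).filter (· ∈ O' n) with hC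
    set S : Finset ℕ := (Finset.range (B (clev F l n))).filter (· ∈ O n) with hS
    have h3 : S.card * 2 ^ n ≤ 2 * B (clev F l n) :=
      hcard n _ (le_clev F l n) S (fun a => by rw [hS, Finset.mem_filter, Finset.mem_range])
    have h4 : C ⊆ F.biUnion fun g => S.image ((rep g n).1⁻¹ : Equiv.Perm ℕ) := by
      intro a ha
      rw [hC, Finset.mem_filter, Finset.mem_range] at ha
      obtain ⟨h5, g, hg, h6⟩ := ha
      refine Finset.mem_biUnion.2 ⟨g, hg, Finset.mem_image.2 ⟨(rep g n).1 a, ?_,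
        Equiv.symm_apply_apply _ a⟩⟩
      rw [hS, Finset.mem_filter, Finset.mem_range]
      exact ⟨(lv_clev F l n hg).1 a h5, h6⟩
    have h5 : C.card ≤ F.card * S.card := by
      refine (Finset.card_le_card h4).trans (Finset.card_biUnion_le.trans ?_)
      calc ∑ g ∈ F, (S.image ((rep g n).1⁻¹ : Equiv.Perm ℕ)).card ≤ ∑ _g ∈ F, S.card :=
            Finset.sum_le_sum fun g _ => Finset.card_image_le
        _ = F.card * S.card := by rw [Finset.sum_const, smul_eq_mul]
    have h6 : 2 * C.card ≤ B (clev F l n) := by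
      have h7 : 2 * C.card * 2 ^ n ≤ B (clev F l n) * 2 ^ n := by
        calc 2 * C.card * 2 ^ n ≤ 2 * (F.card * S.card) * 2 ^ n := by gcongr
          _ = 2 * F.card * (S.card * 2 ^ n) := by ring
          _ ≤ 2 * F.card * (2 * B (clev F l n)) := by gcongr
          _ = B (clev F l n) * (4 * F.card) := by ring
          _ ≤ B (clev F l n) * 2 ^ n := by gcongr
      exact Nat.le_of_mul_le_mul_right h7 (by positivity)
    obtain ⟨g, hg, hg'⟩ := exists_moveOff (clev F l n) C (fun a ha => by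
      rw [hC, Finset.mem_filter, Finset.mem_range] at ha
      exact ha.1) h6
    refine ⟨⟨g, _, hg⟩, fun _ a ha h7 => ?_⟩
    have h8 : a % B (clev F l n) ∈ C := by
      rw [hC, Finset.mem_filter, Finset.mem_range]
      exact ⟨Nat.mod_lt _ (B_pos _), (hmod' n a).2 ha⟩
    refine hg' _ h8 ?_
    rw [hC, Finset.mem_filter, Finset.mem_range]
    refine ⟨hg.1 _ (Nat.mod_lt _ (B_pos _)), ?_⟩
    rw [← hg.mod]
    exact (hmod' n _).2 h7
  choose k hk using h2
  have h3 := h1 1
  rw [one_mul_mem_tl] at h3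
  have h4 := h1 (mk k)
  have h5 : {x : NG | mk k * x ∈ tl O'} = tl (fun n => {a | (k n).1 a ∈ O' n}) := by
    ext x
    exact mul_mem_tl
  rw [h5] at h4
  have h6 := tl_mem_inter hqt h3 h4
  obtain ⟨f, hf⟩ := tl_ne hqt h6
  have h7 : ∀ᶠ n in (UF : Filter ℕ), 4 * F.card ≤ 2 ^ n := by
    have h8 : ∀ᶠ n in (UF : Filter ℕ), 4 * F.card ≤ n :=
      Nat.hyperfilter_le_atTop (eventually_ge_atTop _)
    filter_upwards [h8] with n hn
    exact hn.trans Nat.lt_two_pow_self.le
  obtain ⟨n, h8, h9⟩ := (h7.and hf).exists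
  exact hk n h8 _ h9.1 h9.2

theorem mem_iff_high {q q' : Set (Set NG)} (hq : q ∈ I) (hq' : q' ∈ I) :
    tl (fun n => {a | Even (hiC n a)}) ∈ q ↔ tl (fun n => {a | Even (hiC n a)}) ∈ q' := by
  -- invariance under translations
  have h1 : ∀ r ∈ I, ∀ g : NG, ({x | g * x ∈ tl (fun n => {a | Even (hiC n a)})} ∈ r ↔
      tl (fun n => {a | Even (hiC n a)}) ∈ r) := by
    intro r hr g
    have hrt := hI.isExtType r hr
    have h2 := small hI hmin hr (fun n => Bad n (lev (rep g n)) (rep g n).1)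
      (fun n => lev (rep g n)) (fun n a => mem_bad_mod (lv_lev _) a)
      (fun n k hk S hS => card_bad_le (lv_lev _) hk S hS)
    rw [← tl_mem_compl hrt] at h2
    have h3 : {x | g * x ∈ tl (fun n => {a | Even (hiC n a)})} =
        tl (fun n => {a | (rep g n).1 a ∈ {a | Even (hiC n a)}}) := by
      ext x
      conv_lhs => rw [← mk_rep g]
      exact mul_mem_tl
    rw [h3]
    constructor
    · intro h4
      refine tl_mem_mono hrt (Eventually.of_forall fun n => ?_) (tl_mem_inter hrt h2 h4)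
      rintro a ⟨h5, h6⟩
      rw [Set.mem_ofPred_eq, Set.mem_ofPred_eq, hiC_apply (lv_lev _) h5] at h6
      exact h6
    · intro h4
      refine tl_mem_mono hrt (Eventually.of_forall fun n => ?_) (tl_mem_inter hrt h2 h4)
      rintro a ⟨h5, h6⟩
      rw [Set.mem_ofPred_eq, Set.mem_ofPred_eq, hiC_apply (lv_lev _) h5]
      exact h6
  -- `q = p * q'`
  have h2 : ∃ p, IsExtType L0 p ∧ q = extMul L0 p q' := by
    have hqt' := hI.isExtType _ hq'
    have h4 : IsLeftIdeal L0 {r | ∃ p', IsExtType L0 p' ∧ r = extMul L0 p' q'} := by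
      refine ⟨?_, ⟨_, q', hqt', rfl⟩, ?_⟩
      · rintro r ⟨p', hp', rfl⟩
        exact extMul_isExtType funMap_mul hp' hqt'
      · rintro p₁ hp₁ r ⟨p', hp', rfl⟩
        exact ⟨extMul L0 p₁ p', extMul_isExtType funMap_mul hp₁ hp',
          (extMul_assoc funMap_mul hqt').symm⟩
    have h5 := hmin _ h4 (by
      rintro r ⟨p', hp', rfl⟩
      exact hI.mul_mem _ hp' _ hq')
    have h6 : q ∈ {r | ∃ p', IsExtType L0 p' ∧ r = extMul L0 p' q'} := by
      rw [h5]
      exact hq
    exact h6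
  obtain ⟨p, hp, hqp⟩ := h2
  rw [hqp, mem_extMul (extDef_tl _)]
  by_cases h3 : tl (fun n => {a | Even (hiC n a)}) ∈ q'
  · have h4 : {g : NG | {x : NG | g * x ∈ tl (fun n => {a | Even (hiC n a)})} ∈ q'} = Set.univ := by
      ext g
      simp only [Set.mem_univ, iff_true]
      exact (h1 q' hq' g).2 h3
    rw [h4]
    exact ⟨fun _ => h3, fun _ => hp.univ_mem⟩
  · have h4 : {g : NG | {x : NG | g * x ∈ tl (fun n => {a | Even (hiC n a)})} ∈ q'} = ∅ := by
      ext g
      simp only [Set.mem_empty_iff_false, iff_false]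
      exact fun h => h3 ((h1 q' hq' g).1 h)
    rw [h4]
    exact ⟨fun h => absurd h hp.empty, fun h => absurd h h3⟩

end

end Pool.Agent.Y562.ES
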