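import Pool.Agent.Y562.ES.NPart

/-!
# Proximality over the ultrapower
-/

set_option autoImplicit false
set_option linter.unusedSectionVars false

open FirstOrder FirstOrder.Language FirstOrder.Language.Structure Filter

namespace Pool.Agent.Y562.ES

theorem card_res_le {N M t : ℕ} (h : M ∣ N) :
    ((Finset.range N).filter fun a => a % M = t).card ≤ N / M := by
  classical
  rw [← Finset.card_range (N / M)]
  refine Finset.card_le_card_of_injOn (fun a => a / M) ?_ ?_
  · intro a ha
    rw [Finset.mem_coe, Finset.mem_filter, Finset.mem_range] at ha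
    rw [Finset.mem_coe, Finset.mem_range]
    exact Nat.div_lt_div_of_lt_of_dvd h ha.1
  · intro a ha b hb hab
    rw [Finset.mem_coe, Finset.mem_filter] at ha hb
    simp only at hab
    rw [← Nat.div_add_mod a M, ← Nat.div_add_mod b M, ha.2, hb.2, hab]

theorem two_pow_dvd_B {m n : ℕ} (h : m ≤ n) : 2 ^ m ∣ B n := by
  unfold B
  exact pow_dvd_pow 2 (h.trans (Nat.le_self_pow (by norm_num) n))

/-- A permutation which moves two residue classes into one atom. -/
theorem exists_atom {ι : Type} [DecidableEq ι] (F : Finset ι) (i : ℕ) (hi : F.card + 1 ≤ i)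
    (g : ι → Equiv.Perm ℕ) (O : Set ℕ) (t t' : ℕ) :
    ∃ k : Equiv.Perm ℕ, Lv i k ∧ ∃ T : Finset ι, ∀ a < B i,
      (a % 2 ^ (F.card + 1) = t ∨ a % 2 ^ (F.card + 1) = t') → ∀ x ∈ F, (g x (k a) ∈ O ↔ x ∈ T) := by
  classical
  have hd : 2 ^ (F.card + 1) ∣ B i := two_pow_dvd_B hi
  have hd' : 2 ^ F.card ∣ B i := two_pow_dvd_B (by omega)
  obtain ⟨T, _, hT⟩ := Finset.exists_le_card_fiber_of_mul_le_card_of_maps_to
    (s := Finset.range (B i)) (t := F.powerset) (f := fun a => F.filter fun x => g x a ∈ O)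
    (n := B i / 2 ^ F.card)
    (fun a _ => Finset.mem_powerset.2 (Finset.filter_subset _ _))
    ⟨∅, Finset.empty_mem_powerset _⟩ (by
      rw [Finset.card_powerset, Finset.card_range, Nat.mul_div_cancel' hd'])
  set A : Finset ℕ := (Finset.range (B i)).filter fun a => (F.filter fun x => g x a ∈ O) = T with hA
  set C : Finset ℕ := ((Finset.range (B i)).filter fun a => a % 2 ^ (F.card + 1) = t) ∪
    ((Finset.range (B i)).filter fun a => a % 2 ^ (F.card + 1) = t') with hC
  have h1 : C.card ≤ A.card := by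
    refine (Finset.card_union_le _ _).trans ?_
    have h2 := card_res_le (N := B i) (M := 2 ^ (F.card + 1)) (t := t) hd
    have h3 := card_res_le (N := B i) (M := 2 ^ (F.card + 1)) (t := t') hd
    have h4 : B i / 2 ^ (F.card + 1) + B i / 2 ^ (F.card + 1) = B i / 2 ^ F.card := by
      obtain ⟨c, hc⟩ := hd
      rw [hc, Nat.mul_div_cancel_left _ (by positivity)]
      rw [pow_succ, mul_assoc, Nat.mul_div_cancel_left _ (by positivity)]
      ring
    exact (Nat.add_le_add h2 h3).trans (h4.le.trans hT)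
  obtain ⟨k, hk, hk'⟩ := exists_move i A C
    (fun a ha => Finset.mem_range.1 (Finset.mem_filter.1 ha).1)
    (fun a ha => by
      rw [hC, Finset.mem_union, Finset.mem_filter, Finset.mem_filter, Finset.mem_range] at ha
      rcases ha with ha | ha <;> exact ha.1) h1
  refine ⟨k, hk, T, fun a ha ht x hx => ?_⟩
  have h2 : a ∈ C := by
    rw [hC, Finset.mem_union, Finset.mem_filter, Finset.mem_filter, Finset.mem_range]
    rcases ht with ht | ht
    · exact Or.inl ⟨ha, ht⟩
    · exact Or.inr ⟨ha, ht⟩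
  have h3 := (Finset.mem_filter.1 (hk' a h2)).2
  rw [← h3, Finset.mem_filter]
  exact ⟨fun h => ⟨hx, h⟩, fun h => h.2⟩

section

variable {I : Set (Set (Set NG))} (hI : IsLeftIdeal L0 I)
  (hmin : ∀ I', IsLeftIdeal L0 I' → I' ⊆ I → I' = I)

include hI hmin

theorem prox {u h : Set (Set NG)} (hu : u ∈ I) (huu : extMul L0 u u = u) (hh : h ∈ I)
    (huh : extMul L0 u h = h) (O : ℕ → Set ℕ) (l : ℕ → ℕ)
    (hmod : ∀ n a, a % B (l n) ∈ O n ↔ a ∈ O n) (h1 : tl O ∈ h) : tl O ∈ u := by
  classical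
  by_contra h2
  have hut := hI.isExtType u hu
  have hht := hI.isExtType h hh
  set V : Set NG := {g | {x | g * x ∈ tl O} ∈ h} ∩ {g | {x | g * x ∈ tl O} ∈ u}ᶜ with hV
  have hVd : ExtDefSet L0 NG V := ((extDef_tl O).inner mu0 funMap_mul hht).inter
    ((extDef_tl O).inner mu0 funMap_mul hut).compl
  have hVu : V ∈ u := by
    refine hut.inter _ ?_ _ ?_
    · rw [← huh] at h1
      exact h1.2
    · rw [hut.compl_mem ((extDef_tl O).inner mu0 funMap_mul hut), ← mem_extMul (extDef_tl O), huu]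
      exact h2
  obtain ⟨F, hF⟩ := syndetic funMap_mul hI hmin hu hVu
  -- every `k` separates `h` and `u`
  have h3 : ∀ k : NG, ∃ g ∈ F, {y | g * (k * y) ∈ tl O} ∈ h ∧ {y | g * (k * y) ∈ tl O} ∉ u := by
    intro k
    obtain ⟨g, hg, h4⟩ := hF k
    refine ⟨g, hg, ?_⟩
    have hUd : ExtDefSet L0 NG {y | g * (k * y) ∈ tl O} := by
      have := ((extDef_tl O).translate mu0 funMap_mul g).translate mu0 funMap_mul k
      exact this
    have e : ∀ x : NG, {y | g * (k * x) * y ∈ tl O} =
        {y | x * y ∈ {y | g * (k * y) ∈ tl O}} := by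
      intro x
      ext y
      simp only [Set.mem_ofPred_eq, mul_assoc]
    constructor
    · rw [← huh, mem_extMul hUd]
      refine hut.mono _ h4 _ (hUd.inner mu0 funMap_mul hht) ?_
      rintro x ⟨h5, -⟩
      rw [Set.mem_ofPred_eq] at h5 ⊢
      rw [← e]
      exact h5
    · conv_rhs => rw [← huu]
      rw [mem_extMul hUd, ← hut.compl_mem (hUd.inner mu0 funMap_mul hut)]
      refine hut.mono _ h4 _ (hUd.inner mu0 funMap_mul hut).compl ?_
      rintro x ⟨-, h5⟩
      rw [Set.mem_compl_iff, Set.mem_ofPred_eq] at h5 ⊢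
      rw [← e]
      exact h5
  -- the residues
  obtain ⟨t, ht⟩ := exists_res hht (2 ^ (F.card + 1)) (by positivity)
  obtain ⟨t', ht'⟩ := exists_res hut (2 ^ (F.card + 1)) (by positivity)
  set lv : ℕ → ℕ := clev F (fun n => max (l n) (F.card + 1)) with hlv
  have hlv0 : ∀ n, max (l n) (F.card + 1) ≤ lv n :=
    fun n => le_clev F (fun n => max (l n) (F.card + 1)) n
  have hlv1 : ∀ n, l n ≤ lv n := fun n => (le_max_left _ _).trans (hlv0 n)
  have hlv2 : ∀ n, F.card + 1 ≤ lv n := fun n => (le_max_right _ _).trans (hlv0 n)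
  have h4 : ∀ n, ∃ k : GG, Lv (lv n) k.1 ∧ ∃ T : Finset NG, ∀ a < B (lv n),
      (a % 2 ^ (F.card + 1) = t ∨ a % 2 ^ (F.card + 1) = t') →
        ∀ x ∈ F, ((rep x n).1 (k.1 a) ∈ O n ↔ x ∈ T) := by
    intro n
    obtain ⟨k, hk, T, hT⟩ := exists_atom F (lv n) (hlv2 n) (fun x => (rep x n).1) (O n) t t'
    exact ⟨⟨k, _, hk⟩, hk, T, hT⟩
  choose k hk T hT using h4
  -- the same for all numbers in the residue classes
  have h5 : ∀ n a, (a % 2 ^ (F.card + 1) = t ∨ a % 2 ^ (F.card + 1) = t') →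
      ∀ x ∈ F, ((rep x n).1 ((k n).1 a) ∈ O n ↔ x ∈ T n) := by
    intro n a ha x hx
    have hx' := lv_clev F (fun n => max (l n) (F.card + 1)) n hx
    rw [← hT n (a % B (lv n)) (Nat.mod_lt _ (B_pos _)) (by
      rw [Nat.mod_mod_of_dvd _ (two_pow_dvd_B (hlv2 n))]
      exact ha) x hx, ← hmod n, ← hmod n ((rep x n).1 ((k n).1 (a % B (lv n))))]
    have h6 : ∀ b, b % B (l n) = b % B (lv n) % B (l n) := fun b =>
      (Nat.mod_mod_of_dvd b (B_dvd (hlv1 n))).symm
    rw [h6 ((rep x n).1 ((k n).1 a)), h6 ((rep x n).1 ((k n).1 (a % B (lv n)))), hx'.mod, hx'.mod,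
      (hk n).mod, (hk n).mod, Nat.mod_mod]
  obtain ⟨g, hg, h6, h7⟩ := h3 (mk k)
  have h8 : {y | g * (mk k * y) ∈ tl O} = tl (fun n => {a | (rep g n).1 ((k n).1 a) ∈ O n}) := by
    ext y
    rw [Set.mem_ofPred_eq]
    conv_lhs => rw [← mk_rep g, mul_mem_tl, mul_mem_tl]
    rfl
  rw [h8] at h6 h7
  obtain ⟨f, hf⟩ := tl_ne hht (tl_mem_inter hht h6 ht)
  rw [← tl_mem_compl hut] at h7
  obtain ⟨f', hf'⟩ := tl_ne hut (tl_mem_inter hut h7 ht')
  obtain ⟨n, h9, h10⟩ := (hf.and hf').exists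
  exact h10.1 ((h5 n _ (Or.inr h10.2) g hg).2 ((h5 n _ (Or.inl h9.2) g hg).1 h9.1))

theorem prox_iff {u h : Set (Set NG)} (hu : u ∈ I) (huu : extMul L0 u u = u) (hh : h ∈ I)
    (huh : extMul L0 u h = h) (O : ℕ → Set ℕ) (l : ℕ → ℕ)
    (hmod : ∀ n a, a % B (l n) ∈ O n ↔ a ∈ O n) : tl O ∈ h ↔ tl O ∈ u := by
  refine ⟨prox hI hmin hu huu hh huh O l hmod, fun h1 => ?_⟩
  by_contra h2
  rw [← tl_mem_compl (hI.isExtType h hh)] at h2
  have h3 := prox hI hmin hu huu hh huh (fun n => (O n)ᶜ) l (fun n a => not_congr (hmod n a)) h2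
  rw [tl_mem_compl (hI.isExtType u hu)] at h3
  exact h3 h1

end

/-- The set `W0` does not separate the elements of an ideal subgroup over the ultrapower. -/
theorem top_part (H : Set (Set (Set NG))) (hH : IsIdealSubgroup L0 H) (s s' : Set (Set NG))
    (hs : s ∈ H) (hs' : s' ∈ H) :
    tl (fun _ => {a | Even (tot a)}) ∈ s ↔ tl (fun _ => {a | Even (tot a)}) ∈ s' := by
  obtain ⟨I, hI, hmin, u, hu, huu, rfl⟩ := hH
  have hut := hI.isExtType u hu
  have key : ∀ h ∈ {h | ∃ q ∈ I, h = extMul L0 u q},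
      (tl (fun _ => {a | Even (tot a)}) ∈ h ↔ tl (fun _ => {a | Even (tot a)}) ∈ u) := by
    rintro h ⟨q, hq, hhq⟩
    have hh : h ∈ I := by
      rw [hhq]
      exact hI.mul_mem u hut q hq
    have huh : extMul L0 u h = h := by
      rw [hhq, ← extMul_assoc funMap_mul (hI.isExtType q hq), huu]
    have h1 := prox_iff hI hmin hu huu hh huh (fun n => {a | Even (lowC n a)}) (fun n => n)
      (fun n a => by
        rw [Set.mem_ofPred_eq, Set.mem_ofPred_eq, lowC_mod])
    have h2 := mem_iff_high hI hmin hh hu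
    -- the parity of `tot`
    have h3 : ∀ p, IsExtType L0 p → (tl (fun _ => {a | Even (tot a)}) ∈ p ↔
        (tl (fun n => {a | Even (lowC n a)}) ∈ p ↔ tl (fun n => {a | Even (hiC n a)}) ∈ p)) := by
      intro p hp
      have e : ∀ n a, Even (tot a) ↔ (Even (lowC n a) ↔ Even (hiC n a)) := by
        intro n a
        rw [tot_split n a, Nat.even_add]
      by_cases hl : tl (fun n => {a | Even (lowC n a)}) ∈ p
      · by_cases hh : tl (fun n => {a | Even (hiC n a)}) ∈ p
        · simp only [hl, hh, iff_true]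
          refine tl_mem_mono hp (Eventually.of_forall fun n => ?_) (tl_mem_inter hp hl hh)
          rintro a ⟨h4, h5⟩
          exact (e n a).2 ⟨fun _ => h5, fun _ => h4⟩
        · simp only [hl, hh, iff_false, not_true_eq_false]
          rw [← tl_mem_compl hp] at hh
          rw [← tl_mem_compl hp]
          refine tl_mem_mono hp (Eventually.of_forall fun n => ?_) (tl_mem_inter hp hl hh)
          rintro a ⟨h4, h5⟩ h6
          exact h5 (((e n a).1 h6).1 h4)
      · by_cases hh : tl (fun n => {a | Even (hiC n a)}) ∈ p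
        · simp only [hl, hh, iff_true]
          rw [iff_false, ← tl_mem_compl hp]
          rw [← tl_mem_compl hp] at hl
          refine tl_mem_mono hp (Eventually.of_forall fun n => ?_) (tl_mem_inter hp hl hh)
          rintro a ⟨h4, h5⟩ h6
          exact h4 (((e n a).1 h6).2 h5)
        · simp only [hl, hh, iff_true]
          rw [← tl_mem_compl hp] at hl hh
          refine tl_mem_mono hp (Eventually.of_forall fun n => ?_) (tl_mem_inter hp hl hh)
          rintro a ⟨h4, h5⟩
          exact (e n a).2 ⟨fun h => absurd h h4, fun h => absurd h h5⟩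
    rw [h3 h (hI.isExtType h hh), h3 u hut, h1, h2]
  rw [key s hs, key s' hs']

end Pool.Agent.Y562.ES
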